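import Mathlib

/-!
Statement file for the average case lower bound for the discrepancy of lattice point sets
(`MP_6b2836_nt`).  Every job `J` is the proposition `S_J`.
-/

open Finset

namespace V5LD

/-! ## the discrepancy -/

/-- `i`-th coordinate of the `m`-th point of `P_N(a)`. -/
noncomputable def pt {d : ℕ} (N : ℕ) (a : Fin d → ℕ) (m : ℕ) (i : Fin d) : ℝ :=
  Int.fract ((m : ℝ) * (a i : ℝ) / (N : ℝ))

open Classical in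
/-- local discrepancy for the box `∏ [u_i, v_i)`. -/
noncomputable def ldisc {d : ℕ} (N : ℕ) (a : Fin d → ℕ) (u v : Fin d → ℝ) : ℝ :=
  |(((Finset.range N).filter (fun m => ∀ i, u i ≤ pt N a m i ∧ pt N a m i < v i)).card : ℝ) / N
    - ∏ i, (v i - u i)|

/-- the extreme discrepancy `D_N(a)`. -/
noncomputable def disc {d : ℕ} (N : ℕ) (a : Fin d → ℕ) : ℝ :=
  sSup {x : ℝ | ∃ u v : Fin d → ℝ, (∀ i, 0 ≤ u i ∧ u i ≤ v i ∧ v i ≤ 1) ∧ x = ldisc N a u v}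

/-- `D` bounds every local discrepancy. -/
def DiscLE {d : ℕ} (N : ℕ) (a : Fin d → ℕ) (D : ℝ) : Prop :=
  ∀ u v : Fin d → ℝ, (∀ i, 0 ≤ u i ∧ u i ≤ v i ∧ v i ≤ 1) → ldisc N a u v ≤ D

open Classical in
/-- the theorem. -/
def S_MAIN : Prop := ∀ d : ℕ, 2 ≤ d → ∀ χ : ℝ, χ < 1 → ∃ C : ℝ, 0 < C ∧ ∀ N : ℕ, 1 ≤ N →
  χ * (N : ℝ) ^ d ≤ (((univ : Finset (Fin d → Fin N)).filter (fun a =>
    C * ((Real.log N) ^ (d - 1) * Real.log (Real.log N)) / N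
      ≤ disc N (fun i => ((a i : Fin N) : ℕ)))).card : ℝ)

/-! ## deterministic part -/

/-- number of non-zero entries. -/
def supp {L : ℕ} (s : Fin L → ℤ) : ℕ := (univ.filter (fun j => s j ≠ 0)).card

/-- all sign vectors with entries `-1, 0, 1`. -/
def signs (L : ℕ) : Finset (Fin L → ℤ) := Fintype.piFinset (fun _ => ({-1, 0, 1} : Finset ℤ))

/-- ANA: Riesz product duality. -/
def S_ANA : Prop := ∀ (d N L : ℕ) (a : Fin d → ℕ) (D : ℝ) (h : Fin L → Fin d → ℤ),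
  0 < d → 0 < N → DiscLE N a D →
  (∀ j, (N : ℤ) ∣ ∑ i, h j i * (a i : ℤ)) →
  (∀ s ∈ signs L, s ≠ 0 → ∀ i, ∑ j, s j * h j i ≠ 0) →
  ∑ j, ∏ i, (1 / (2 * Real.pi * |(h j i : ℝ)|)) ≤ 2 ^ d * D +
    ∑ s ∈ (signs L).filter (fun s => 2 ≤ supp s),
      (1 / 2 : ℝ) ^ (supp s) * ∏ i, (1 / (2 * Real.pi * |((∑ j, s j * h j i : ℤ) : ℝ)|))

/-- `∏ |h_i|`. -/
noncomputable def rr {d : ℕ} (h : Fin d → ℤ) : ℝ := ∏ i, |(h i : ℝ)|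

/-- admissible family of integer vectors. -/
structure Adm {d : ℕ} (N : ℕ) (R t1 t2 T : ℝ) (H : Finset (Fin d → ℤ)) : Prop where
  nz : ∀ h ∈ H, ∀ i, h i ≠ 0
  lo : ∀ h ∈ H, t1 * rr h ≤ N
  hi : ∀ h ∈ H, (N : ℝ) ≤ t2 * rr h
  sep : ∀ h ∈ H, ∀ h' ∈ H, h ≠ h' → ∀ i,
    R * |(h i : ℝ)| ≤ |(h' i : ℝ)| ∨ R * |(h' i : ℝ)| ≤ |(h i : ℝ)|
  sum : T ≤ ∑ h ∈ H, (N : ℝ) / rr h

/-- DET: lower bound of the discrepancy from an admissible family in the dual lattice. -/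
def S_DET : Prop := ∀ d : ℕ, 0 < d → ∃ c : ℝ, 0 < c ∧ ∃ e : ℝ, 0 < e ∧
  ∀ (N : ℕ) (a : Fin d → ℕ) (H : Finset (Fin d → ℤ)) (R t1 t2 T D : ℝ),
  0 < N → 3 ≤ R → 0 < t1 → 0 < t2 → t2 ≤ T → 2 * T ≤ R * t1 → T * t2 ≤ e * (R * t1 ^ 2) →
  Adm N R t1 t2 T H → (∀ h ∈ H, (N : ℤ) ∣ ∑ i, h i * (a i : ℤ)) →
  DiscLE N a D → c * T / N ≤ D

/-! ## probabilistic part: interface -/

/-- separation. -/
noncomputable def Rp (N : ℕ) : ℝ := (Real.log N) ^ (1 / 2 : ℝ)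
/-- lower threshold. -/
noncomputable def t1p (n N : ℕ) : ℝ := (Real.log N) ^ ((n : ℝ) - 1 / 4)
/-- upper threshold. -/
noncomputable def t2p (n N : ℕ) : ℝ := (Real.log N) ^ ((n : ℝ) - 1 / 8)
/-- size of the sum. -/
noncomputable def Tp (n N : ℕ) (c : ℝ) : ℝ := c * ((Real.log N) ^ n * Real.log (Real.log N))

/-- the good event for `a = (g, b)`. -/
def GoodB (n N g : ℕ) (c : ℝ) (b : Fin n → ℕ) : Prop :=
  ∃ H : Finset (Fin (n + 1) → ℤ), Adm N (Rp N) (t1p n N) (t2p n N) (Tp n N c) H ∧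
    ∀ h ∈ H, (N : ℤ) ∣ h 0 * (g : ℤ) + ∑ i : Fin n, h i.succ * (b i : ℤ)

/-- every common divisor of `g` and all `b i` is at most `F`. -/
def CoLe {n : ℕ} (g F : ℕ) (b : Fin n → ℕ) : Prop := ∀ e : ℕ, e ∣ g → (∀ i, e ∣ b i) → e ≤ F

open Classical in
/-- PB: for most `b` there is an admissible family (`n = d - 1`). -/
def S_PB (n : ℕ) : Prop := ∃ η : ℝ, 0 < η ∧ ∀ ε : ℝ, 0 < ε → ∀ F : ℕ, ∃ c : ℝ, 0 < c ∧
  ∃ N0 : ℕ, ∀ N : ℕ, N0 ≤ N → ∀ g : ℕ, g ∣ N → (g : ℝ) ≤ (N : ℝ) ^ η →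
  (((univ : Finset (Fin n → Fin N)).filter (fun b =>
    CoLe g F (fun i => ((b i : Fin N) : ℕ)) ∧
    ¬ GoodB n N g c (fun i => ((b i : Fin N) : ℕ)))).card : ℝ) ≤ ε * (N : ℝ) ^ n

open Classical in
/-- DIV: few residues have a large gcd with `N`. -/
def S_DIV : Prop := ∀ η : ℝ, 0 < η → ∀ ε : ℝ, 0 < ε → ∃ N0 : ℕ, ∀ N : ℕ, N0 ≤ N →
  (((Finset.range N).filter (fun x => (N : ℝ) ^ η < (Nat.gcd x N : ℝ))).card : ℝ) ≤ ε * N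

open Classical in
/-- GCD: few tuples have a large common divisor with `N`. -/
def S_GCD : Prop := ∀ n F N : ℕ, 1 ≤ n → 1 ≤ F → 1 ≤ N →
  (((univ : Finset (Fin (n + 1) → Fin N)).filter (fun a =>
    ∃ e : ℕ, F < e ∧ e ∣ N ∧ ∀ i, e ∣ ((a i : Fin N) : ℕ))).card : ℝ) ≤ (N : ℝ) ^ (n + 1) / F

/-- ASM: assembly. -/
def S_ASM : Prop := S_DET → (∀ n : ℕ, 1 ≤ n → S_PB n) → S_DIV → S_GCD → S_MAIN

/-! ## n = 1: continued fractions -/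

/-- weight of the fraction `m / k` for `b / M`. -/
noncomputable def wt (M b k m : ℕ) : ℝ := (M : ℝ) / ((k : ℝ) * |(k : ℝ) * b - (m : ℝ) * M|)

open Classical in
/-- sum of the weights in `[t1, t2]` over reduced fractions. -/
noncomputable def cfsum (M K : ℕ) (t1 t2 : ℝ) (b : ℕ) : ℝ :=
  ∑ p ∈ ((Finset.Icc 1 K) ×ˢ (Finset.range (K + 1))).filter (fun p =>
    Nat.Coprime p.1 p.2 ∧ t1 ≤ wt M b p.1 p.2 ∧ wt M b p.1 p.2 ≤ t2), wt M b p.1 p.2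

open Classical in
/-- CF: lower tail of the sum of large partial quotients. -/
def S_CF : Prop := ∃ c : ℝ, 0 < c ∧ ∃ C : ℝ, 0 < C ∧ ∀ (M K : ℕ) (t1 t2 : ℝ),
  2 ≤ t1 → C * t1 ≤ t2 → C * t2 ≤ K → C * (K : ℝ) ^ 6 ≤ M →
  (((Finset.range M).filter (fun b =>
    cfsum M K t1 t2 b < c * (Real.log (t2 / t1) * Real.log K))).card : ℝ)
    ≤ C * M * Real.exp (-(c * (Real.log (t2 / t1) * Real.log K) / t2))

/-- PB1. -/
def S_PB1 : Prop := S_CF → S_PB 1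

/-! ## n ≥ 2: lattice sums and pairwise independence -/

open Classical in
/-- number of solutions of `∑ ρ_i b_i ≡ 0 mod g` in one cube. -/
noncomputable def cnt (n g : ℕ) (b : Fin n → ℕ) : ℕ :=
  ((univ : Finset (Fin n → Fin g)).filter (fun ρ => g ∣ ∑ i, ((ρ i : Fin g) : ℕ) * b i)).card

/-- LC: the number of solutions in a cube. -/
def S_LC : Prop := ∀ (n g F : ℕ) (b : Fin n → ℕ), 0 < n → 0 < g →
  (g ^ (n - 1) ≤ cnt n g b) ∧ (CoLe g F b → cnt n g b ≤ F * g ^ (n - 1))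

/-- product of the coordinates. -/
noncomputable def pr {n : ℕ} (k : Fin n → ℕ) : ℝ := ∏ i, (k i : ℝ)

open Classical in
/-- lattice points `k` with `g ∣ k·b` in the box `[g Q0, g Q1)^n`. -/
noncomputable def Lat (n g : ℕ) (b : Fin n → ℕ) (Q0 Q1 : ℕ) : Finset (Fin n → ℕ) :=
  (Fintype.piFinset (fun _ : Fin n => Finset.Ico (g * Q0) (g * Q1))).filter
    (fun k => g ∣ ∑ i, k i * b i)

open Classical in
/-- the primitive ones: no proper divisor `k / m` lies in the lattice. -/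
noncomputable def Fam (n g : ℕ) (b : Fin n → ℕ) (Q0 Q1 : ℕ) : Finset (Fin n → ℕ) :=
  (Lat n g b Q0 Q1).filter (fun k => ∀ m : ℕ, 2 ≤ m → ∀ k' : Fin n → ℕ,
    k = (fun i => m * k' i) → ¬ g ∣ ∑ i, k' i * b i)

/-- LAT1: the primitive lattice points carry a positive proportion of the mass. -/
def S_LAT1 : Prop := ∀ n : ℕ, 2 ≤ n → ∃ C : ℝ, 0 < C ∧ ∀ (g : ℕ) (b : Fin n → ℕ) (Q0 Q1 : ℕ),
  0 < g → 0 < Q0 → Q0 < Q1 → g ^ (n - 1) ≤ cnt n g b →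
  C ≤ Real.log ((Q1 : ℝ) / Q0) → (g : ℝ) * (1 + Real.log (g * Q1)) ^ n ≤ Q0 →
  (1 / 16 : ℝ) * (Real.log ((Q1 : ℝ) / Q0)) ^ n ≤ ∑ k ∈ Fam n g b Q0 Q1, (g : ℝ) / pr k

/-- two vectors which are close in some coordinate or in the product. -/
def Close {n : ℕ} (R : ℝ) (k k' : Fin n → ℕ) : Prop :=
  (∃ i, (k i : ℝ) ≤ R * k' i ∧ (k' i : ℝ) ≤ R * k i) ∨ (pr k ≤ R * pr k' ∧ pr k' ≤ R * pr k)

open Classical in
/-- LAT2: the mass of close pairs. -/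
def S_LAT2 : Prop := ∀ n : ℕ, 1 ≤ n → ∃ C : ℝ, 0 < C ∧
  ∀ (g F : ℕ) (b : Fin n → ℕ) (Q0 Q1 : ℕ) (R : ℝ),
  0 < g → 0 < Q0 → Q0 ≤ Q1 → 1 ≤ R → cnt n g b ≤ F * g ^ (n - 1) →
  ∑ p ∈ ((Lat n g b Q0 Q1) ×ˢ (Lat n g b Q0 Q1)).filter (fun p => Close R p.1 p.2),
    ((g : ℝ) / pr p.1) * ((g : ℝ) / pr p.2)
  ≤ C * (F : ℝ) ^ 2 * (1 + Real.log Q1) ^ (2 * n - 1) * (1 + Real.log R)

/-- the residue of `k·z` of least absolute value. -/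
noncomputable def res (Q : ℕ) {n : ℕ} (k : Fin n → ℕ) (z : Fin n → ZMod Q) : ℤ :=
  (∑ i, (k i : ZMod Q) * z i).valMinAbs

/-- the weight of `k` at `z`. -/
noncomputable def ww (Q g : ℕ) {n : ℕ} (k : Fin n → ℕ) (z : Fin n → ZMod Q) : ℝ :=
  ((g : ℝ) * Q) / (pr k * |(res Q k z : ℝ)|)

/-- `k` is active at `z`. -/
def Act (Q g : ℕ) (t1 t2 : ℝ) {n : ℕ} (k : Fin n → ℕ) (z : Fin n → ZMod Q) : Prop :=
  t1 ≤ ww Q g k z ∧ ww Q g k z ≤ t2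

/-- linear independence modulo `Q`. -/
def Indep (Q : ℕ) {n : ℕ} (k k' : Fin n → ℕ) : Prop :=
  ∃ i j, ¬ ((Q : ℤ) ∣ (k i : ℤ) * (k' j : ℤ) - (k j : ℤ) * (k' i : ℤ))

open Classical in
/-- SM1: second moment. -/
def S_SM1 : Prop := ∃ C : ℝ, 0 < C ∧ ∀ (n Q g : ℕ) (F : Finset (Fin n → ℕ)) (t1 t2 : ℝ),
  Q.Prime → 0 < g → 1 ≤ t1 → C * t1 ≤ t2 →
  (∀ k ∈ F, (∀ i, 0 < k i ∧ k i < Q) ∧ C * t2 * pr k ≤ g * Q ∧ 2 * (g : ℝ) ≤ t1 * pr k) →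
  (∀ k ∈ F, ∀ k' ∈ F, k ≠ k' → Indep Q k k') → F.Nonempty → 2 ≤ n →
  (((Finset.univ : Finset (Fin n → Fin Q)).filter (fun z =>
    (∑ k ∈ F.filter (fun k => Act Q g t1 t2 k (fun i => ((z i : ℕ) : ZMod Q))),
      ww Q g k (fun i => ((z i : ℕ) : ZMod Q)))
      < (1 / 2 : ℝ) * (Real.log (t2 / t1) * ∑ k ∈ F, (g : ℝ) / pr k))).card : ℝ)
    ≤ (C * t2 / (Real.log (t2 / t1) * ∑ k ∈ F, (g : ℝ) / pr k)) * (Q : ℝ) ^ n

open Classical in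
/-- SM2: union bound over pairs. -/
def S_SM2 : Prop := ∀ (n Q g : ℕ) (P : Finset ((Fin n → ℕ) × (Fin n → ℕ))) (t1 t2 : ℝ),
  Q.Prime → 0 < g → 0 < t1 → 2 ≤ n →
  (∀ p ∈ P, (∀ i, 0 < p.1 i) ∧ (∀ i, 0 < p.2 i) ∧ Indep Q p.1 p.2) →
  (((Finset.univ : Finset (Fin n → Fin Q)).filter (fun z =>
    ∃ p ∈ P, Act Q g t1 t2 p.1 (fun i => ((z i : ℕ) : ZMod Q)) ∧
      Act Q g t1 t2 p.2 (fun i => ((z i : ℕ) : ZMod Q)))).card : ℝ)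
    ≤ (4 / t1 ^ 2 * ∑ p ∈ P, ((g : ℝ) / pr p.1) * ((g : ℝ) / pr p.2)) * (Q : ℝ) ^ n

/-- PB2: assembly for `n ≥ 2`. -/
def S_PB2 : Prop := S_LC → S_LAT1 → S_LAT2 → S_SM1 → S_SM2 → ∀ n : ℕ, 2 ≤ n → S_PB n

end V5LD
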