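import Pool.Agent.V5helper66.LD.PB2
import Pool.Agent.V5helper37.LD.LC
import Pool.Agent.V5helper37.LD.SM1
import Pool.Agent.V5helper34.LD.LAT1
import Pool.Agent.V5helper19.LD.DET
import Pool.Agent.V5helper68.LD.PB1
import Pool.Agent.V5helper13.LD.ASM
import Pool.Agent.V5helper13.LD.DIV
import Pool.Agent.V5helper69.LD.CF

/-! assembly of the project LD. -/

namespace V5LD

theorem all_PB (n : ℕ) (hn : 1 ≤ n) : S_PB n := by
  rcases Nat.lt_or_ge n 2 with h | h
  · have : n = 1 := by omega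
    subst this
    exact V5LDpb1.t_PB1 V5helper69.LD.t_CF
  · exact H66.t_PB2 Pool.Agent.V5helper37.LD.t_LC LatOne.t_LAT1 LatTwo.t_LAT2
      Pool.Agent.V5helper37.LD.t_SM1 Pool.Agent.V5helper37.LD.t_SM2 n h

theorem main_of_ANA (hA : S_ANA) : S_MAIN :=
  t_ASM (Pool.Agent.V5helper19.LD.t_DET hA) all_PB t_DIV Pool.Agent.V5helper37.LD.t_GCD

end V5LD

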