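import Pool.Agent.V5helper66.LD.PB2d

open Finset

namespace V5LD.H66

lemma thresholds (n N : ℕ) {u : ℝ} (hu : 1 ≤ u) (hul : u = (Real.log N) ^ (1 / 8 : ℝ))
    (hl : 1 ≤ Real.log N) : Real.log N = u ^ 8 ∧ Rp N = u ^ 4 ∧
      t1p n N * u ^ 2 = (Real.log N) ^ n ∧ t2p n N * u = (Real.log N) ^ n := by
  have hl0 : 0 < Real.log N := by linarith
  refine ⟨?_, ?_, ?_, ?_⟩
  · rw [hul, ← Real.rpow_natCast, ← Real.rpow_mul hl0.le]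
    norm_num
  · unfold Rp
    rw [hul, ← Real.rpow_natCast, ← Real.rpow_mul hl0.le]
    norm_num
  · unfold t1p
    rw [hul, ← Real.rpow_natCast, ← Real.rpow_mul hl0.le, ← Real.rpow_add hl0,
      ← Real.rpow_natCast]
    congr 1
    push_cast
    ring
  · unfold t2p
    rw [hul, ← Real.rpow_add hl0, ← Real.rpow_natCast]
    congr 1
    ring

lemma adm_mono {d N : ℕ} {R t1 t2 T T' : ℝ} {H : Finset (Fin d → ℤ)}
    (h : Adm N R t1 t2 T H) (hT : T' ≤ T) : Adm N R t1 t2 T' H :=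
  ⟨h.nz, h.lo, h.hi, h.sep, hT.trans h.sum⟩

lemma final_bound {n M Q : ℕ} {BC ε δ1 δ2 : ℝ} (hM : 0 < M) (hMQ : 2 * M ≤ Q) (hBC0 : 0 ≤ BC)
    (h1 : δ1 ≤ ε / 2 ^ (n + 1)) (h2 : δ2 ≤ ε / 2 ^ (n + 1))
    (hone : BC * (((Q / M : ℕ) : ℝ)) ^ n ≤ (δ1 + δ2) * (Q : ℝ) ^ n) :
    BC ≤ ε * (M : ℝ) ^ n := by
  have hM1 : (0:ℝ) < M := by exact_mod_cast hM
  have h4' : 2 * (M:ℝ) ≤ Q := by exact_mod_cast hMQ
  have hQr : (0:ℝ) < Q := by linarith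
  have hQM : (Q : ℝ) / (2 * M) ≤ ((Q / M : ℕ) : ℝ) := by
    have h3 : (Q : ℝ) < M * (((Q / M : ℕ) : ℝ) + 1) := by
      have := Nat.lt_mul_div_succ Q hM
      exact_mod_cast this
    rw [div_le_iff₀ (by positivity)]
    linarith
  have h6 : BC * ((Q : ℝ) / (2 * M)) ^ n ≤ (2 * (ε / 2 ^ (n + 1))) * (Q : ℝ) ^ n := by
    calc BC * ((Q : ℝ) / (2 * M)) ^ n ≤ BC * (((Q / M : ℕ) : ℝ)) ^ n := by gcongr
      _ ≤ (δ1 + δ2) * (Q : ℝ) ^ n := hone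
      _ ≤ (2 * (ε / 2 ^ (n + 1))) * (Q : ℝ) ^ n := by
          apply mul_le_mul_of_nonneg_right _ (by positivity)
          linarith
  rw [div_pow, mul_div_assoc', div_le_iff₀ (by positivity)] at h6
  have h7 : BC ≤ 2 * (ε / 2 ^ (n + 1)) * (2 * M) ^ n := by
    have : BC * (Q:ℝ) ^ n ≤ (2 * (ε / 2 ^ (n + 1)) * (2 * M) ^ n) * (Q:ℝ) ^ n := by
      calc BC * (Q:ℝ) ^ n ≤ 2 * (ε / 2 ^ (n + 1)) * (Q:ℝ) ^ n * (2 * M) ^ n := h6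
        _ = _ := by ring
    exact le_of_mul_le_mul_right this (by positivity)
  calc BC ≤ 2 * (ε / 2 ^ (n + 1)) * (2 * M) ^ n := h7
    _ = ε * (M : ℝ) ^ n := by
      rw [mul_pow, pow_succ]
      field_simp

lemma d1_bound {n : ℕ} {CS l u η ε2 L S t2 : ℝ} (hl0 : 0 < l) (hu0 : 0 < u) (hη0 : 0 < η)
    (hε20 : 0 < ε2) (hCS : 0 < CS) (ht2v : t2 = l ^ n / (2 * u)) (hL1 : 1 ≤ L)
    (hSl : (1 / 16) * ((2 * η) ^ n * l ^ n) ≤ S)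
    (hB : 8 * CS / ((2 * η) ^ n * ε2) ≤ u) : CS * t2 / (L * S) ≤ ε2 := by
  have hη2 : 0 < (2 * η) ^ n := by positivity
  have hln : 0 < l ^ n := by positivity
  have hS0 : 0 < S := lt_of_lt_of_le (by positivity) hSl
  have hL0 : 0 < L := by linarith
  rw [div_le_iff₀ (by positivity)]
  have h3 : (1 / 16) * ((2 * η) ^ n * l ^ n) ≤ L * S := by
    calc (1 / 16) * ((2 * η) ^ n * l ^ n) ≤ S := hSl
      _ = 1 * S := by ring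
      _ ≤ L * S := by gcongr
  rw [div_le_iff₀ (by positivity)] at hB
  have h5 : CS * t2 ≤ ε2 * ((1 / 16) * ((2 * η) ^ n * l ^ n)) := by
    rw [ht2v, mul_div_assoc', div_le_iff₀ (by positivity)]
    have : 8 * CS * l ^ n ≤ u * ((2 * η) ^ n * ε2) * l ^ n := by gcongr
    linarith
  calc CS * t2 ≤ ε2 * ((1 / 16) * ((2 * η) ^ n * l ^ n)) := h5
    _ ≤ ε2 * (L * S) := by gcongr

lemma d2_bound {n : ℕ} {CL2 Fr l u ε2 t1 T lq lr : ℝ} (hn : 2 ≤ n) (hl1 : 1 ≤ l) (hu1 : 1 ≤ u)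
    (hlu : l = u ^ 8) (hε20 : 0 < ε2) (hCL2 : 0 < CL2) (ht1v : t1 = 2 * l ^ n / u ^ 2)
    (hlq0 : 0 ≤ lq) (hlq : lq ≤ l) (hlr0 : 0 ≤ lr) (hlr : 1 + lr ≤ 5 * u)
    (hT : T ≤ CL2 * Fr ^ 2 * (1 + lq) ^ (2 * n - 1) * (1 + lr))
    (hB : CL2 * Fr ^ 2 * 2 ^ (2 * n - 1) * 5 / ε2 ≤ u) : 4 / t1 ^ 2 * T ≤ ε2 := by
  have hl0 : 0 < l := by linarith
  have hu0 : 0 < u := by linarith
  have e1 : 4 / t1 ^ 2 = u ^ 4 / (l ^ n) ^ 2 := by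
    rw [ht1v]
    field_simp
    norm_num
  have e3 : (1 + lq) ^ (2 * n - 1) ≤ (2 * l) ^ (2 * n - 1) :=
    pow_le_pow_left₀ (by linarith) (by linarith) _
  have e4 : l ^ (2 * n - 1) * l = (l ^ n) ^ 2 := by
    rw [← pow_succ, ← pow_mul]
    congr 1
    omega
  calc 4 / t1 ^ 2 * T
      ≤ u ^ 4 / (l ^ n) ^ 2 * (CL2 * Fr ^ 2 * (2 * l) ^ (2 * n - 1) * (5 * u)) := by
        rw [e1]
        apply mul_le_mul_of_nonneg_left _ (by positivity)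
        refine hT.trans ?_
        apply mul_le_mul _ hlr (by linarith) (by positivity)
        exact mul_le_mul_of_nonneg_left e3 (by positivity)
    _ = (CL2 * Fr ^ 2 * 2 ^ (2 * n - 1) * 5) * (u ^ 5 / l) := by
        rw [← e4, mul_pow]
        field_simp
    _ ≤ (CL2 * Fr ^ 2 * 2 ^ (2 * n - 1) * 5) * (1 / u) := by
        apply mul_le_mul_of_nonneg_left _ (by positivity)
        rw [div_le_div_iff₀ hl0 hu0]
        calc u ^ 5 * u = u ^ 6 := by ring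
          _ ≤ u ^ 8 := pow_le_pow_right₀ hu1 (by norm_num)
          _ = 1 * l := by rw [one_mul]; exact hlu.symm
    _ ≤ ε2 := by
        rw [mul_one_div, div_le_iff₀ hu0]
        rw [div_le_iff₀ hε20] at hB
        linarith

/-- bounds for the members of the family. -/
lemma fam_bounds {n g Q Q0 Q1 N : ℕ} {X : ℝ} (hn : 2 ≤ n) (hg : 0 < g) (hQ02 : 2 ≤ Q0)
    (hgQ1 : ((g * Q1 : ℕ) : ℝ) ≤ X ^ 8) (hgQ1N : g * Q1 ≤ N) (hNQ : N < Q)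
    (b0 : Fin n → ℕ) (k : Fin n → ℕ) (hk : k ∈ Fam n g b0 Q0 Q1) :
    (∀ i, 0 < k i ∧ k i < Q) ∧ (2 * (g : ℝ) ≤ pr k) ∧ pr k ≤ (X ^ 8) ^ n := by
  rw [mem_Fam, mem_Lat] at hk
  obtain ⟨⟨hkb, -⟩, -⟩ := hk
  have hg1 : (1:ℝ) ≤ g := by exact_mod_cast hg
  refine ⟨fun i => ⟨?_, ?_⟩, ?_, ?_⟩
  · exact lt_of_lt_of_le (Nat.mul_pos hg (by omega)) (hkb i).1
  · exact lt_of_lt_of_le (hkb i).2 (hgQ1N.trans hNQ.le)
  · have h3 : ((g * Q0 : ℕ) : ℝ) ^ n ≤ pr k :=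
      le_pr (Nat.cast_nonneg _) (fun i => by exact_mod_cast (hkb i).1)
    have h4 : 2 * g ≤ g * Q0 := by
      rw [Nat.mul_comm 2 g]; exact Nat.mul_le_mul_left _ hQ02
    have h4' : 2 * (g:ℝ) ≤ ((g * Q0 : ℕ) : ℝ) := by exact_mod_cast h4
    have h5 : (1:ℝ) ≤ ((g * Q0 : ℕ) : ℝ) := by linarith
    calc 2 * (g:ℝ) ≤ ((g * Q0 : ℕ) : ℝ) := h4'
      _ = ((g * Q0 : ℕ) : ℝ) ^ 1 := by rw [pow_one]
      _ ≤ ((g * Q0 : ℕ) : ℝ) ^ n := pow_le_pow_right₀ h5 (by omega)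
      _ ≤ pr k := h3
  · apply pr_le
    intro i
    have : (k i : ℝ) ≤ ((g * Q1 : ℕ) : ℝ) := by exact_mod_cast (hkb i).2.le
    exact this.trans hgQ1

lemma t_facts {n : ℕ} {l u t1 t2 CS : ℝ} (hn : 2 ≤ n) (hl1 : 1 ≤ l) (hu1 : 1 ≤ u)
    (hlu : l = u ^ 8) (hul : u = l ^ (1 / 8 : ℝ)) (hCSu : 4 * CS ≤ u)
    (hll : 16 * Real.log 4 ≤ Real.log l) (hlog4 : 1 ≤ Real.log 4)
    (ht1v : t1 = 2 * l ^ n / u ^ 2) (ht2v : t2 = l ^ n / (2 * u)) :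
    0 < t1 ∧ 0 < t2 ∧ t2 = t1 * (u / 4) ∧ 1 ≤ t1 ∧ t2 ≤ l ^ n ∧ CS * t1 ≤ t2 ∧
      Real.log l / 16 ≤ Real.log (t2 / t1) ∧ 1 ≤ Real.log (t2 / t1) := by
  have hl0 : 0 < l := by linarith
  have hu0 : 0 < u := by linarith
  have hln : (1:ℝ) ≤ l ^ n := one_le_pow₀ hl1
  have ht10 : 0 < t1 := by rw [ht1v]; positivity
  have ht20 : 0 < t2 := by rw [ht2v]; positivity
  have hratio : t2 / t1 = u / 4 := by
    rw [ht1v, ht2v]
    field_simp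
    norm_num
  have hu8 : u ^ 2 ≤ l ^ n := by
    calc u ^ 2 ≤ u ^ 8 := pow_le_pow_right₀ hu1 (by norm_num)
      _ = l ^ 1 := by rw [pow_one]; exact hlu.symm
      _ ≤ l ^ n := pow_le_pow_right₀ hl1 (by omega)
  have hLval : Real.log (t2 / t1) = Real.log l / 8 - Real.log 4 := by
    rw [hratio, Real.log_div (by positivity) (by norm_num), hul, Real.log_rpow hl0]
    ring
  refine ⟨ht10, ht20, ?_, ?_, ?_, ?_, ?_, ?_⟩
  · rw [← hratio]; field_simp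
  · rw [ht1v, le_div_iff₀ (by positivity)]
    linarith
  · rw [ht2v, div_le_iff₀ (by positivity)]
    have : l ^ n * 1 ≤ l ^ n * (2 * u) := mul_le_mul_of_nonneg_left (by linarith) (by positivity)
    linarith
  · have : CS ≤ t2 / t1 := by
      rw [hratio]
      linarith
    rwa [le_div_iff₀ ht10] at this
  · rw [hLval]; linarith
  · rw [hLval]; linarith

open Classical in
lemma inner {n g M Q Q0 Q1 F : ℕ} {b0 : Fin n → ℕ} {l u X η ε CL1 CL2 CS A c : ℝ}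
    (hLC : S_LC)
    (hLAT1 : ∀ (g : ℕ) (b : Fin n → ℕ) (Q0 Q1 : ℕ),
      0 < g → 0 < Q0 → Q0 < Q1 → g ^ (n - 1) ≤ cnt n g b →
      CL1 ≤ Real.log ((Q1 : ℝ) / Q0) → (g : ℝ) * (1 + Real.log (g * Q1)) ^ n ≤ Q0 →
      (1 / 16 : ℝ) * (Real.log ((Q1 : ℝ) / Q0)) ^ n ≤ ∑ k ∈ Fam n g b Q0 Q1, (g : ℝ) / pr k)
    (hLAT2 : ∀ (g F : ℕ) (b : Fin n → ℕ) (Q0 Q1 : ℕ) (R : ℝ),
      0 < g → 0 < Q0 → Q0 ≤ Q1 → 1 ≤ R → cnt n g b ≤ F * g ^ (n - 1) →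
      ∑ p ∈ ((Lat n g b Q0 Q1) ×ˢ (Lat n g b Q0 Q1)).filter (fun p => Close R p.1 p.2),
        ((g : ℝ) / pr p.1) * ((g : ℝ) / pr p.2)
      ≤ CL2 * (F : ℝ) ^ 2 * (1 + Real.log Q1) ^ (2 * n - 1) * (1 + Real.log R))
    (hSM1 : ∀ (n Q g : ℕ) (F : Finset (Fin n → ℕ)) (t1 t2 : ℝ),
      Q.Prime → 0 < g → 1 ≤ t1 → CS * t1 ≤ t2 →
      (∀ k ∈ F, (∀ i, 0 < k i ∧ k i < Q) ∧ CS * t2 * pr k ≤ g * Q ∧ 2 * (g : ℝ) ≤ t1 * pr k) →
      (∀ k ∈ F, ∀ k' ∈ F, k ≠ k' → Indep Q k k') → F.Nonempty → 2 ≤ n →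
      (((Finset.univ : Finset (Fin n → Fin Q)).filter (fun z =>
        (∑ k ∈ F.filter (fun k => Act Q g t1 t2 k (fun i => ((z i : ℕ) : ZMod Q))),
          ww Q g k (fun i => ((z i : ℕ) : ZMod Q)))
          < (1 / 2 : ℝ) * (Real.log (t2 / t1) * ∑ k ∈ F, (g : ℝ) / pr k))).card : ℝ)
        ≤ (CS * t2 / (Real.log (t2 / t1) * ∑ k ∈ F, (g : ℝ) / pr k)) * (Q : ℝ) ^ n)
    (hS2 : S_SM2) (hn : 2 ≤ n) (hg : 0 < g) (hM : 0 < M) (hQp : Q.Prime)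
    (hQN : (g * M) ^ 2 ≤ Q) (hN2 : 2 ≤ g * M)
    (hb0 : ∀ i, b0 i < g) (hco : CoLe g F b0) (hQ02 : 2 ≤ Q0) (hQ01 : Q0 < Q1)
    (hl : l = Real.log ((g * M : ℕ) : ℝ)) (hlu : l = u ^ 8) (hul : u = l ^ (1 / 8 : ℝ))
    (hRu : Rp (g * M) = u ^ 4)
    (ht1u : t1p n (g * M) * u ^ 2 = l ^ n) (ht2u : t2p n (g * M) * u = l ^ n)
    (hl1 : 1 ≤ l) (hu1 : 1 ≤ u) (hη0 : 0 < η) (hε : 0 < ε) (hCL2 : 0 < CL2) (hCS : 0 < CS)
    (hX1 : 1 ≤ X) (hXN : X ^ (16 * (n + 1)) = ((g * M : ℕ) : ℝ)) (hgX : (g : ℝ) ≤ X)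
    (hQ0X : X ^ 4 ≤ Q0) (hQ1X : (Q1 : ℝ) ≤ X ^ 7)
    (hA1 : 1 ≤ A) (hAC : CS ≤ A) (hAn : 2 * (n : ℝ) ≤ A) (hAX : A * (1 + l) ^ n ≤ X)
    (hlogQ' : 2 * η * l ≤ Real.log ((Q1 : ℝ) / Q0)) (hCL1 : CL1 ≤ 2 * η * l)
    (hCSu : 4 * CS ≤ u) (hll : 16 * Real.log 4 ≤ Real.log l) (hlog4 : 1 ≤ Real.log 4)
    (hBd1 : 8 * CS / ((2 * η) ^ n * (ε / 2 ^ (n + 1))) ≤ u)
    (hBd2 : CL2 * (F : ℝ) ^ 2 * 2 ^ (2 * n - 1) * 5 / (ε / 2 ^ (n + 1)) ≤ u)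
    (hc : c = (2 * η) ^ n / 1024) :
    (((univ : Finset (Fin n → Fin M)).filter
        (fun β => ¬ GoodB n (g * M) g c (fun i => b0 i + g * (β i : ℕ)))).card : ℝ)
      ≤ ε * (M : ℝ) ^ n := by
  have hl0 : 0 < l := by linarith
  have hu0 : 0 < u := by linarith
  have hX0 : 0 < X := by linarith
  have hε20 : 0 < ε / 2 ^ (n + 1) := by positivity
  have hQpos : 0 < Q := hQp.pos
  obtain ⟨hcnt1, hcnt2'⟩ := hLC n g F b0 (by omega) hg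
  have hcnt2 := hcnt2' hco
  -- sizes
  have hgQ1 : ((g * Q1 : ℕ) : ℝ) ≤ X ^ 8 := by
    push_cast
    calc (g : ℝ) * Q1 ≤ X * X ^ 7 := mul_le_mul hgX hQ1X (Nat.cast_nonneg _) hX0.le
      _ = X ^ 8 := by ring
  have hgQ1N0 : ((g * Q1 : ℕ) : ℝ) ≤ ((g * M : ℕ) : ℝ) := by
    refine hgQ1.trans ?_
    rw [← hXN]
    exact pow_le_pow_right₀ hX1 (by omega)
  have hgQ1N : g * Q1 ≤ g * M := by exact_mod_cast hgQ1N0
  have hNQ : g * M < Q := by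
    calc g * M < (g * M) * 2 := by omega
      _ ≤ (g * M) * (g * M) := Nat.mul_le_mul_left _ hN2
      _ = (g * M) ^ 2 := by ring
      _ ≤ Q := hQN
  have hQsq : (g * Q1) * (g * Q1) ≤ Q := by
    calc (g * Q1) * (g * Q1) ≤ (g * M) * (g * M) := Nat.mul_le_mul hgQ1N hgQ1N
      _ = (g * M) ^ 2 := by ring
      _ ≤ Q := hQN
  have hQ1pos : 0 < Q1 := by omega
  have hloggQ1 : Real.log ((g * Q1 : ℕ) : ℝ) ≤ l := by
    rw [hl]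
    apply Real.log_le_log _ hgQ1N0
    exact_mod_cast Nat.mul_pos hg hQ1pos
  have hlogQ1 : Real.log Q1 ≤ l := by
    refine le_trans ?_ hloggQ1
    apply Real.log_le_log
    · exact_mod_cast hQ1pos
    · exact_mod_cast Nat.le_mul_of_pos_left _ hg
  have hloggQ0 : 0 ≤ Real.log ((g * Q1 : ℕ) : ℝ) := Real.log_natCast_nonneg _
  have hlogQ10 : 0 ≤ Real.log Q1 := Real.log_natCast_nonneg _
  -- thresholds
  obtain ⟨t1, ht1⟩ : ∃ t1 : ℝ, t1 = 2 * t1p n (g * M) := ⟨_, rfl⟩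
  obtain ⟨t2, ht2⟩ : ∃ t2 : ℝ, t2 = t2p n (g * M) / 2 := ⟨_, rfl⟩
  have ht1p : t1p n (g * M) = l ^ n / u ^ 2 := by
    rw [eq_div_iff (by positivity)]; exact ht1u
  have ht2p : t2p n (g * M) = l ^ n / u := by
    rw [eq_div_iff (by positivity)]; exact ht2u
  have ht1v : t1 = 2 * l ^ n / u ^ 2 := by rw [ht1, ht1p]; ring
  have ht2v : t2 = l ^ n / (2 * u) := by rw [ht2, ht2p]; field_simp
  obtain ⟨ht10, ht20, hratio, ht11, ht2l, hCt, hL16, hL1⟩ :=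
    t_facts hn hl1 hu1 hlu hul hCSu hll hlog4 ht1v ht2v
  obtain ⟨L, hLdef⟩ : ∃ L : ℝ, L = Real.log (t2 / t1) := ⟨_, rfl⟩
  rw [← hLdef] at hL16 hL1
  -- LAT1
  have hpl : (1 + Real.log ((g * Q1 : ℕ) : ℝ)) ^ n ≤ X := by
    calc (1 + Real.log ((g * Q1 : ℕ) : ℝ)) ^ n ≤ (1 + l) ^ n :=
          pow_le_pow_left₀ (by linarith) (by linarith) n
      _ = 1 * (1 + l) ^ n := by ring
      _ ≤ A * (1 + l) ^ n := mul_le_mul_of_nonneg_right hA1 (by positivity)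
      _ ≤ X := hAX
  have hLcond : (g : ℝ) * (1 + Real.log (g * Q1)) ^ n ≤ Q0 := by
    have e : Real.log ((g:ℝ) * Q1) = Real.log ((g * Q1 : ℕ) : ℝ) := by push_cast; rfl
    rw [e]
    calc (g : ℝ) * (1 + Real.log ((g * Q1 : ℕ) : ℝ)) ^ n ≤ X * X :=
          mul_le_mul hgX hpl (by positivity) hX0.le
      _ = X ^ 2 := by ring
      _ ≤ X ^ 4 := pow_le_pow_right₀ hX1 (by norm_num)
      _ ≤ Q0 := hQ0X
  have hLA := hLAT1 g b0 Q0 Q1 hg (by omega) hQ01 hcnt1 (hCL1.trans hlogQ') hLcond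
  obtain ⟨S, hS⟩ : ∃ S : ℝ, S = ∑ k ∈ Fam n g b0 Q0 Q1, (g : ℝ) / pr k := ⟨_, rfl⟩
  rw [← hS] at hLA
  have hSl : (1 / 16) * ((2 * η) ^ n * l ^ n) ≤ S := by
    refine le_trans ?_ hLA
    rw [← mul_pow]
    have : (2 * η * l) ^ n ≤ (Real.log ((Q1 : ℝ) / Q0)) ^ n :=
      pow_le_pow_left₀ (by positivity) hlogQ' n
    linarith
  have hS0 : 0 < S := lt_of_lt_of_le (by positivity) hSl
  have hne : (Fam n g b0 Q0 Q1).Nonempty := by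
    rw [Finset.nonempty_iff_ne_empty]
    intro h
    rw [hS, h, Finset.sum_empty] at hS0
    exact lt_irrefl _ hS0
  have hfb := fam_bounds (Q := Q) hn hg hQ02 hgQ1 hgQ1N hNQ b0
  have hln1 : l ^ n ≤ (1 + l) ^ n := pow_le_pow_left₀ hl0.le (by linarith) n
  have hCSl : CS * l ^ n ≤ X := by
    calc CS * l ^ n ≤ A * (1 + l) ^ n := mul_le_mul hAC hln1 (by positivity) (by linarith)
      _ ≤ X := hAX
  have h2nl : 2 * n * l ^ n ≤ X := by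
    calc 2 * n * l ^ n ≤ A * (1 + l) ^ n := mul_le_mul hAn hln1 (by positivity) (by linarith)
      _ ≤ X := hAX
  have hNQr : ((g * M : ℕ) : ℝ) ≤ (Q : ℝ) := by exact_mod_cast hNQ.le
  have hQg : (Q : ℝ) ≤ g * Q := by
    have h1 : (1:ℝ) ≤ g := by exact_mod_cast hg
    calc (Q : ℝ) = 1 * Q := by ring
      _ ≤ g * Q := mul_le_mul_of_nonneg_right h1 (Nat.cast_nonneg _)
  -- SM1
  have hZ1 := hSM1 n Q g (Fam n g b0 Q0 Q1) t1 t2 hQp hg ht11 hCt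
    (by
      intro k hk
      obtain ⟨h3, h4, h5⟩ := hfb k hk
      have hpr0 : 0 ≤ pr k := (pr_pos (fun i => (h3 i).1)).le
      refine ⟨h3, ?_, ?_⟩
      · calc CS * t2 * pr k ≤ CS * l ^ n * (X ^ 8) ^ n :=
              mul_le_mul (mul_le_mul_of_nonneg_left ht2l hCS.le) h5 hpr0 (by positivity)
          _ ≤ X * (X ^ 8) ^ n := mul_le_mul_of_nonneg_right hCSl (by positivity)
          _ = X ^ (8 * n + 1) := by rw [← pow_mul]; ring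
          _ ≤ X ^ (16 * (n + 1)) := pow_le_pow_right₀ hX1 (by omega)
          _ = ((g * M : ℕ) : ℝ) := hXN
          _ ≤ (Q : ℝ) := hNQr
          _ ≤ g * Q := hQg
      · calc 2 * (g : ℝ) ≤ pr k := h4
          _ = 1 * pr k := by ring
          _ ≤ t1 * pr k := mul_le_mul_of_nonneg_right ht11 hpr0)
    (by
      intro k hk k' hk' hkk
      exact indep_of_ne (by omega) hk hk' (Nat.mul_pos hg (by omega)) hkk hQsq)
    hne hn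
  obtain ⟨δ1, hδ1⟩ : ∃ δ1 : ℝ, δ1 = CS * t2 / (L * S) := ⟨_, rfl⟩
  rw [← hLdef, ← hS, ← hδ1] at hZ1
  have hδ1e : δ1 ≤ ε / 2 ^ (n + 1) := by
    rw [hδ1]
    exact d1_bound hl0 hu0 hη0 hε20 hCS ht2v hL1 hSl hBd1
  -- SM2
  obtain ⟨R', hR'⟩ : ∃ R' : ℝ, R' = u ^ 5 := ⟨_, rfl⟩
  have hR'1 : 1 ≤ R' := by rw [hR']; exact one_le_pow₀ hu1
  obtain ⟨P, hP⟩ : ∃ P, P = ((Fam n g b0 Q0 Q1) ×ˢ (Fam n g b0 Q0 Q1)).filter
      (fun p => p.1 ≠ p.2 ∧ Close R' p.1 p.2) := ⟨_, rfl⟩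
  have hZ2 := hS2 n Q g P t1 t2 hQp hg ht10 hn
    (by
      intro p hp
      rw [hP, Finset.mem_filter, Finset.mem_product] at hp
      refine ⟨fun i => ((hfb _ hp.1.1).1 i).1, fun i => ((hfb _ hp.1.2).1 i).1, ?_⟩
      exact indep_of_ne (by omega) hp.1.1 hp.1.2 (Nat.mul_pos hg (by omega)) hp.2.1 hQsq)
  have hLA2 := hLAT2 g F b0 Q0 Q1 R' hg (by omega) hQ01.le hR'1 hcnt2
  have hPsum : ∑ p ∈ P, ((g : ℝ) / pr p.1) * ((g : ℝ) / pr p.2)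
      ≤ CL2 * (F : ℝ) ^ 2 * (1 + Real.log Q1) ^ (2 * n - 1) * (1 + Real.log R') := by
    refine le_trans ?_ hLA2
    apply Finset.sum_le_sum_of_subset_of_nonneg
    · intro p hp
      rw [hP, Finset.mem_filter, Finset.mem_product] at hp
      rw [Finset.mem_filter, Finset.mem_product]
      exact ⟨⟨(mem_Fam.mp hp.1.1).1, (mem_Fam.mp hp.1.2).1⟩, hp.2.2⟩
    · intro p _ _
      have e1 : 0 ≤ pr p.1 := Finset.prod_nonneg (fun i _ => Nat.cast_nonneg _)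
      have e2 : 0 ≤ pr p.2 := Finset.prod_nonneg (fun i _ => Nat.cast_nonneg _)
      positivity
  obtain ⟨δ2, hδ2⟩ : ∃ δ2 : ℝ,
    δ2 = 4 / t1 ^ 2 * ∑ p ∈ P, ((g : ℝ) / pr p.1) * ((g : ℝ) / pr p.2) := ⟨_, rfl⟩
  rw [← hδ2] at hZ2
  have hδ2e : δ2 ≤ ε / 2 ^ (n + 1) := by
    have e2 : 1 + Real.log R' ≤ 5 * u := by
      rw [hR', Real.log_pow]
      have := Real.log_le_sub_one_of_pos hu0
      push_cast
      linarith
    rw [hδ2]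
    exact d2_bound hn hl1 hu1 hlu hε20 hCL2 ht1v hlogQ10 hlogQ1 (Real.log_nonneg hR'1) e2
      hPsum hBd2
  -- one_b0
  have hk1 : ((g : ℝ) * M) = X ^ (16 * (n + 1)) := by rw [hXN]; push_cast; ring
  have hone := one_b0 (n := n) (g := g) (M := M) (Q := Q) (Q0 := Q0) (Q1 := Q1) (b0 := b0)
    (t1 := t1) (t2 := t2) (R := Rp (g * M)) (R' := R')
    (X0 := (1 / 2 : ℝ) * (L * S)) (δ1 := δ1) (δ2 := δ2)
    hg hM hQpos hb0 (by omega) ht10 ht20 (by rw [hRu]; positivity)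
    (by
      rw [hRu, hR', hratio]
      apply le_of_eq
      ring)
    (by rw [hRu, hR']; exact pow_le_pow_right₀ hu1 (by norm_num))
    (by
      intro k hk
      obtain ⟨h3, h4, h5⟩ := hfb k hk
      have hpr0 : 0 ≤ pr k := (pr_pos (fun i => (h3 i).1)).le
      calc 2 * ((n : ℝ) * ((g * Q1 : ℕ) : ℝ)) * (pr k * t2)
          ≤ 2 * ((n : ℝ) * X ^ 8) * ((X ^ 8) ^ n * l ^ n) := by
            apply mul_le_mul _ _ (by positivity) (by positivity)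
            · exact mul_le_mul_of_nonneg_left
                (mul_le_mul_of_nonneg_left hgQ1 (Nat.cast_nonneg _)) (by norm_num)
            · exact mul_le_mul h5 ht2l ht20.le (by positivity)
        _ = (2 * n * l ^ n) * (X ^ 8 * (X ^ 8) ^ n) := by ring
        _ ≤ X * (X ^ 8 * (X ^ 8) ^ n) := mul_le_mul_of_nonneg_right h2nl (by positivity)
        _ = X ^ (8 * n + 9) := by rw [← pow_mul]; ring
        _ ≤ X ^ (16 * (n + 1)) := pow_le_pow_right₀ hX1 (by omega)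
        _ = (g : ℝ) * M := hk1.symm)
    hZ1 (by rw [← hP]; exact hZ2)
  -- conclude
  have h4 : 2 * M ≤ Q := by
    calc 2 * M ≤ 2 * (g * M) := by
          apply Nat.mul_le_mul_left
          exact Nat.le_mul_of_pos_left _ hg
      _ ≤ (g * M) * (g * M) := Nat.mul_le_mul_right _ hN2
      _ = (g * M) ^ 2 := by ring
      _ ≤ Q := hQN
  refine le_trans ?_ (final_bound hM h4 (Nat.cast_nonneg _) hδ1e hδ2e hone)
  refine Nat.cast_le.mpr (Finset.card_le_card ?_)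
  intro β hβ
  rw [Finset.mem_filter] at hβ ⊢
  refine ⟨hβ.1, ?_⟩
  rintro ⟨H, hH1, hH2⟩
  apply hβ.2
  refine ⟨H, ?_, hH2⟩
  have e1 : t1 / 2 = t1p n (g * M) := by rw [ht1]; ring
  have e2 : 2 * t2 = t2p n (g * M) := by rw [ht2]; ring
  rw [e1, e2] at hH1
  apply adm_mono hH1
  unfold Tp
  rw [← hl, hc]
  have hll0 : 0 ≤ Real.log l := by linarith
  have h3 : (Real.log l / 16) * ((1 / 16) * ((2 * η) ^ n * l ^ n)) ≤ L * S :=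
    mul_le_mul hL16 hSl (by positivity) (by linarith)
  calc (2 * η) ^ n / 1024 * (l ^ n * Real.log l)
      = ((Real.log l / 16) * ((1 / 16) * ((2 * η) ^ n * l ^ n))) / 4 := by ring
    _ ≤ (1 / 2 : ℝ) * (L * S) / 2 := by linarith

open Classical in
theorem t_PB2 : S_PB2 := by
  intro hLC h1 h2 hS1 hS2 n hn
  obtain ⟨CL1, hCL1, hLAT1⟩ := h1 n hn
  obtain ⟨CL2, hCL2, hLAT2⟩ := h2 n (by omega)
  obtain ⟨CS, hCS, hSM1⟩ := hS1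
  obtain ⟨η, hη⟩ : ∃ η : ℝ, η = 1 / (16 * ((n : ℝ) + 1)) := ⟨_, rfl⟩
  have hη0 : 0 < η := by rw [hη]; positivity
  refine ⟨η, hη0, ?_⟩
  intro ε hε F
  obtain ⟨c, hc⟩ : ∃ c : ℝ, c = (2 * η) ^ n / 1024 := ⟨_, rfl⟩
  have hc0 : 0 < c := by rw [hc]; positivity
  have hlog4 : 1 ≤ Real.log 4 := by
    have h4 : Real.exp 1 ≤ 4 := by
      have := Real.exp_one_lt_d9
      linarith
    calc (1:ℝ) = Real.log (Real.exp 1) := (Real.log_exp 1).symm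
      _ ≤ Real.log 4 := Real.log_le_log (Real.exp_pos 1) h4
  obtain ⟨B, hB1, hBL1, hBlog, hBCS, hBd1, hBd2⟩ : ∃ B : ℝ, 1 ≤ B ∧ CL1 / (2 * η) ≤ B ∧
      16 * Real.log 4 ≤ B ∧ 4 * CS ≤ B ∧
      8 * CS / ((2 * η) ^ n * (ε / 2 ^ (n + 1))) ≤ B ∧
      CL2 * (F : ℝ) ^ 2 * 2 ^ (2 * n - 1) * 5 / (ε / 2 ^ (n + 1)) ≤ B := by
    have a1 : 0 ≤ CL1 / (2 * η) := by positivity
    have a2 : 0 ≤ 8 * CS / ((2 * η) ^ n * (ε / 2 ^ (n + 1))) := by positivity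
    have a3 : 0 ≤ CL2 * (F : ℝ) ^ 2 * 2 ^ (2 * n - 1) * 5 / (ε / 2 ^ (n + 1)) := by positivity
    refine ⟨1 + CL1 / (2 * η) + 16 * Real.log 4 + 4 * CS
      + 8 * CS / ((2 * η) ^ n * (ε / 2 ^ (n + 1)))
      + CL2 * (F : ℝ) ^ 2 * 2 ^ (2 * n - 1) * 5 / (ε / 2 ^ (n + 1)), ?_, ?_, ?_, ?_, ?_, ?_⟩ <;>
      linarith
  obtain ⟨A, hA⟩ : ∃ A : ℝ, A = CS + 2 * n + 4 := ⟨_, rfl⟩
  have hnn : (0:ℝ) ≤ n := Nat.cast_nonneg _
  obtain ⟨N0, hN0⟩ := asym0 n η A B hη0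
  refine ⟨c, hc0, N0, ?_⟩
  intro N hN g hgN hgη
  obtain ⟨hN2, hBu, hBll, hBl, hAX⟩ := hN0 N hN
  obtain ⟨M, hNM⟩ := hgN
  have hg : 0 < g := by
    rcases Nat.eq_zero_or_pos g with h | h
    · rw [h, zero_mul] at hNM; omega
    · exact h
  have hM : 0 < M := by
    rcases Nat.eq_zero_or_pos M with h | h
    · rw [h, mul_zero] at hNM; omega
    · exact h
  obtain ⟨l, hl⟩ : ∃ l : ℝ, l = Real.log (N : ℝ) := ⟨_, rfl⟩
  obtain ⟨X, hX⟩ : ∃ X : ℝ, X = (N : ℝ) ^ η := ⟨_, rfl⟩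
  obtain ⟨u, hu⟩ : ∃ u : ℝ, u = (Real.log (N : ℝ)) ^ (1 / 8 : ℝ) := ⟨_, rfl⟩
  rw [← hX] at hAX hgη
  rw [← hu] at hBu
  rw [← hl] at hBll hBl hAX
  have hl1 : 1 ≤ l := hB1.trans hBl
  have hl0 : 0 < l := by linarith
  have hu1 : 1 ≤ u := hB1.trans hBu
  obtain ⟨hlu, hRu, ht1u, ht2u⟩ := thresholds n N hu1 hu (by rw [← hl]; exact hl1)
  rw [← hl] at hlu ht1u ht2u hu
  have hNr : (0:ℝ) < N := by
    have : (2:ℝ) ≤ N := by exact_mod_cast hN2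
    linarith
  have hXN : X ^ (16 * (n + 1)) = N := by
    rw [hX, ← Real.rpow_natCast, ← Real.rpow_mul hNr.le]
    have : η * ((16 * (n + 1) : ℕ) : ℝ) = 1 := by
      rw [hη]; push_cast; field_simp
    rw [this, Real.rpow_one]
  have hlX : Real.log X = η * l := by
    rw [hX, Real.log_rpow hNr, ← hl]
  have hpow1 : 1 ≤ (1 + l) ^ n := one_le_pow₀ (by linarith)
  have hA4 : 4 ≤ A := by rw [hA]; linarith
  have hX4 : 4 ≤ X := by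
    calc (4:ℝ) ≤ A := hA4
      _ = A * 1 := by ring
      _ ≤ A * (1 + l) ^ n := mul_le_mul_of_nonneg_left hpow1 (by linarith)
      _ ≤ X := hAX
  obtain ⟨Q0, Q1, hQ02, hQ01, hQ0X, hQ1X, hlogQ⟩ := params hX4
  obtain ⟨Q, hQN, hQp⟩ := Nat.exists_infinite_primes (N ^ 2)
  have hlogQ' : 2 * η * l ≤ Real.log ((Q1 : ℝ) / Q0) := by
    rw [hlX] at hlogQ; linarith
  have hCL1' : CL1 ≤ 2 * η * l := by
    have h3 := hBL1.trans hBl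
    rw [div_le_iff₀ (by positivity)] at h3
    linarith
  subst hNM
  have hfin : (((univ : Finset (Fin n → Fin (g * M))).filter (fun b =>
      CoLe g F (fun i => ((b i : Fin (g * M)) : ℕ)) ∧
      ¬ GoodB n (g * M) g c (fun i => ((b i : Fin (g * M)) : ℕ)))).card : ℝ)
      ≤ (g : ℝ) ^ n * (ε * (M : ℝ) ^ n) := by
    apply split_card hg (fun b => GoodB n (g * M) g c b)
      (mul_nonneg hε.le (pow_nonneg (Nat.cast_nonneg _) _))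
    intro b0 hb0 hco
    exact inner hLC hLAT1 hLAT2 hSM1 hS2 hn hg hM hQp hQN hN2 hb0 hco hQ02 hQ01 hl hlu hu hRu
      ht1u ht2u hl1 hu1 hη0 hε hCL2 hCS (by linarith) hXN hgη hQ0X hQ1X (by linarith)
      (by rw [hA]; linarith) (by rw [hA]; linarith) hAX hlogQ' hCL1' (hBCS.trans hBu)
      (hBlog.trans hBll) hlog4 (hBd1.trans hBu) (hBd2.trans hBu) hc
  refine hfin.trans (le_of_eq ?_)
  rw [Nat.cast_mul, mul_pow]
  ring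

end V5LD.H66
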