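import Pool.Agent.V5helper66.LD.Stm

open Finset

namespace V5LD.H66

lemma res_spec {n Q : ℕ} (k z : Fin n → ℕ) :
    ∃ m : ℤ, (∑ i, (k i : ℤ) * (z i : ℤ)) =
      res Q k (fun i => ((z i : ℕ) : ZMod Q)) + Q * m := by
  have h : (((∑ i, (k i : ℤ) * (z i : ℤ)) - res Q k (fun i => ((z i : ℕ) : ZMod Q)) : ℤ) : ZMod Q)
      = 0 := by
    unfold res
    push_cast
    simp
  rw [ZMod.intCast_zmod_eq_zero_iff_dvd] at h
  obtain ⟨m, hm⟩ := h
  exact ⟨m, by linarith⟩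

lemma exists_h0 {n g M Q : ℕ} (hg : 0 < g) (hQ : 0 < Q) (k b0 z : Fin n → ℕ) (K : ℕ)
    (hk : ∀ i, k i ≤ K) (hb : ∀ i, b0 i < g) (hdiv : g ∣ ∑ i, k i * b0 i) :
    ∃ h0 : ℤ, (((g * M : ℕ) : ℤ) ∣ h0 * (g : ℤ) +
        ∑ i, (k i : ℤ) * ((b0 i + g * (M * z i / Q) : ℕ) : ℤ)) ∧
      |(h0 : ℝ) + M * (res Q k (fun i => ((z i : ℕ) : ZMod Q)) : ℝ) / Q| ≤ n * K := by
  obtain ⟨m, hm⟩ := res_spec (Q := Q) k z
  obtain ⟨c0, hc0⟩ := hdiv
  set r := res Q k (fun i => ((z i : ℕ) : ZMod Q)) with hr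
  have hQ' : (0:ℝ) < Q := by exact_mod_cast hQ
  have hg' : (0:ℝ) < g := by exact_mod_cast hg
  have he' : ∀ i, (Q : ℝ) * ((M * z i / Q : ℕ) : ℝ) + ((M * z i % Q : ℕ) : ℝ) = M * z i := by
    intro i
    exact_mod_cast Nat.div_add_mod (M * z i) Q
  have hlt : ∀ i, M * z i % Q < Q := fun i => Nat.mod_lt _ hQ
  generalize hbp : (fun i => M * z i / Q) = bp
  generalize hep : (fun i => M * z i % Q) = ep
  have hbp' : ∀ i, M * z i / Q = bp i := fun i => congrFun hbp i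
  have hep' : ∀ i, M * z i % Q = ep i := fun i => congrFun hep i
  simp only [hbp', hep'] at he' hlt ⊢
  refine ⟨m * M - c0 - ∑ i, (k i : ℤ) * ((bp i : ℕ) : ℤ), ?_, ?_⟩
  · refine ⟨m, ?_⟩
    have h1 : ∑ i, (k i : ℤ) * ((b0 i + g * (bp i) : ℕ) : ℤ)
        = (g : ℤ) * c0 + g * ∑ i, (k i : ℤ) * ((bp i : ℕ) : ℤ) := by
      have h2 : ((g : ℤ) * c0) = ∑ i, (k i : ℤ) * (b0 i : ℤ) := by
        have := congrArg (fun x : ℕ => (x : ℤ)) hc0
        push_cast at this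
        linarith
      rw [h2, Finset.mul_sum, ← Finset.sum_add_distrib]
      refine Finset.sum_congr rfl (fun i _ => ?_)
      push_cast
      ring
    rw [h1]
    push_cast
    ring
  · have hmr : (∑ i, (k i : ℝ) * (z i : ℝ)) = r + Q * m := by exact_mod_cast hm
    have hc0r : (∑ i, (k i : ℝ) * (b0 i : ℝ)) = g * c0 := by exact_mod_cast hc0
    have he : ∀ i, ((bp i : ℕ) : ℝ) = (M * z i - ((ep i : ℕ) : ℝ)) / Q := by
      intro i
      have := he' i
      field_simp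
      linarith
    have hkey : ((m * M - c0 - ∑ i, (k i : ℤ) * ((bp i : ℕ) : ℤ) : ℤ) : ℝ)
        + M * (r : ℝ) / Q = (∑ i, (k i : ℝ) * ((ep i : ℕ) : ℝ)) / Q - c0 := by
      push_cast
      have h4 : (∑ i, (k i : ℝ) * (((bp i : ℕ) : ℝ)))
          = (M * (r + Q * m) - ∑ i, (k i : ℝ) * ((ep i : ℕ) : ℝ)) / Q := by
        rw [← hmr, Finset.mul_sum, ← Finset.sum_sub_distrib, Finset.sum_div]
        refine Finset.sum_congr rfl (fun i _ => ?_)
        rw [he i]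
        field_simp
      rw [h4]
      field_simp
      ring
    rw [hkey]
    have hsumk : (∑ i, (k i : ℝ)) ≤ n * K := by
      calc (∑ i, (k i : ℝ)) ≤ ∑ _i : Fin n, (K : ℝ) :=
            Finset.sum_le_sum (fun i _ => by exact_mod_cast hk i)
        _ = n * K := by simp
    have hA0 : 0 ≤ (∑ i, (k i : ℝ) * ((ep i : ℕ) : ℝ)) / Q := by positivity
    have hA1 : (∑ i, (k i : ℝ) * ((ep i : ℕ) : ℝ)) / Q ≤ n * K := by
      rw [div_le_iff₀ hQ']
      calc (∑ i, (k i : ℝ) * ((ep i : ℕ) : ℝ)) ≤ ∑ i, (k i : ℝ) * Q := by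
            refine Finset.sum_le_sum (fun i _ => ?_)
            have : ((ep i : ℕ) : ℝ) ≤ Q := by exact_mod_cast (hlt i).le
            exact mul_le_mul_of_nonneg_left this (by positivity)
        _ = (∑ i, (k i : ℝ)) * Q := by rw [Finset.sum_mul]
        _ ≤ n * K * Q := mul_le_mul_of_nonneg_right hsumk hQ'.le
    have hB0 : (0:ℝ) ≤ c0 := by positivity
    have hB1 : (c0 : ℝ) ≤ n * K := by
      have : (g : ℝ) * c0 ≤ g * (n * K) := by
        rw [← hc0r]
        calc (∑ i, (k i : ℝ) * (b0 i : ℝ)) ≤ ∑ i, (k i : ℝ) * g := by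
              refine Finset.sum_le_sum (fun i _ => ?_)
              have : (b0 i : ℝ) ≤ g := by exact_mod_cast (hb i).le
              exact mul_le_mul_of_nonneg_left this (by positivity)
          _ = g * (∑ i, (k i : ℝ)) := by rw [← Finset.sum_mul]; ring
          _ ≤ g * (n * K) := mul_le_mul_of_nonneg_left hsumk hg'.le
      exact le_of_mul_le_mul_left this hg'
    rw [abs_le]
    constructor <;> linarith


lemma act_bounds {n g M Q : ℕ} (hg : 0 < g) (hM : 0 < M) (hQ : 0 < Q) {k : Fin n → ℕ}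
    (hk : ∀ i, 0 < k i) {z : Fin n → ZMod Q} {t1 t2 : ℝ} (ht1 : 0 < t1) (ht2 : 0 < t2) {B : ℝ}
    (hA : Act Q g t1 t2 k z) {h0 : ℤ} (hh : |(h0 : ℝ) + M * (res Q k z : ℝ) / Q| ≤ B)
    (herr : 2 * B * (pr k * t2) ≤ g * M) :
    0 < pr k ∧ ∃ x : ℝ, 0 < x ∧ ww Q g k z = (g * M) / (pr k * x) ∧ x / 2 ≤ |(h0 : ℝ)| ∧
      |(h0 : ℝ)| ≤ 2 * x ∧ t1 * (pr k * x) ≤ g * M ∧ g * M ≤ t2 * (pr k * x) := by
  have hQ' : (0:ℝ) < Q := by exact_mod_cast hQ
  have hg' : (0:ℝ) < g := by exact_mod_cast hg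
  have hM' : (0:ℝ) < M := by exact_mod_cast hM
  have hpr : 0 < pr k := by
    unfold pr
    exact Finset.prod_pos (fun i _ => by exact_mod_cast hk i)
  refine ⟨hpr, ?_⟩
  obtain ⟨hA1, hA2⟩ := hA
  set r := (res Q k z : ℝ) with hr
  have hWpos : 0 < ww Q g k z := lt_of_lt_of_le ht1 hA1
  have hrne : |r| ≠ 0 := by
    intro h0'
    unfold ww at hWpos
    rw [← hr, h0'] at hWpos
    simp at hWpos
  have hrpos : 0 < |r| := lt_of_le_of_ne (abs_nonneg _) (Ne.symm hrne)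
  refine ⟨M * |r| / Q, by positivity, ?_, ?_, ?_, ?_, ?_⟩
  · unfold ww
    rw [← hr]
    field_simp
  all_goals
    have hW : ww Q g k z = (g * M) / (pr k * (M * |r| / Q)) := by
      unfold ww
      rw [← hr]
      field_simp
    have hx : 0 < M * |r| / Q := by positivity
    have h1 : t1 * (pr k * (M * |r| / Q)) ≤ g * M := by
      rw [hW, le_div_iff₀ (by positivity)] at hA1
      exact hA1
    have h2 : (g : ℝ) * M ≤ t2 * (pr k * (M * |r| / Q)) := by
      rw [hW, div_le_iff₀ (by positivity)] at hA2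
      exact hA2
    have h3 : 2 * B ≤ M * |r| / Q := by
      have : (2 * B) * (pr k * t2) ≤ (M * |r| / Q) * (pr k * t2) := by
        calc (2 * B) * (pr k * t2) ≤ g * M := herr
          _ ≤ t2 * (pr k * (M * |r| / Q)) := h2
          _ = (M * |r| / Q) * (pr k * t2) := by ring
      exact le_of_mul_le_mul_right this (by positivity)
    have h4 : |M * r / Q| = M * |r| / Q := by
      rw [abs_div, abs_mul, abs_of_pos hM', abs_of_pos hQ']
    have h5 : |M * r / Q| - |(h0 : ℝ)| ≤ |(h0 : ℝ) + M * r / Q| := by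
      have := abs_sub_abs_le_abs_sub (M * r / Q) (-(h0:ℝ))
      rw [abs_neg, sub_neg_eq_add, add_comm] at this
      linarith
    have h6 : |(h0 : ℝ)| - |M * r / Q| ≤ |(h0 : ℝ) + M * r / Q| := by
      have := abs_sub_abs_le_abs_sub (h0 : ℝ) (-(M * r / Q))
      rw [abs_neg, sub_neg_eq_add] at this
      linarith
    rw [h4] at h5 h6
  · linarith
  · linarith
  · exact h1
  · exact h2

open Classical in
lemma core {n g M Q : ℕ} {b0 z : Fin n → ℕ} {K : ℕ} {t1 t2 R R' X0 : ℝ}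
    (F : Finset (Fin n → ℕ)) (hg : 0 < g) (hM : 0 < M) (hQ : 0 < Q)
    (hF : ∀ k ∈ F, (∀ i, 0 < k i ∧ k i ≤ K) ∧ g ∣ ∑ i, k i * b0 i) (hb : ∀ i, b0 i < g)
    (ht1 : 0 < t1) (ht2 : 0 < t2) (hR : 0 < R) (hR' : 4 * R * t2 ≤ R' * t1) (hRR' : R ≤ R')
    (herr : ∀ k ∈ F, 2 * (n * K) * (pr k * t2) ≤ g * M)
    (hX : X0 ≤ ∑ k ∈ F.filter (fun k => Act Q g t1 t2 k (fun i => ((z i : ℕ) : ZMod Q))),
      ww Q g k (fun i => ((z i : ℕ) : ZMod Q)))
    (hclose : ∀ k ∈ F, ∀ k' ∈ F, k ≠ k' → Act Q g t1 t2 k (fun i => ((z i : ℕ) : ZMod Q)) →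
      Act Q g t1 t2 k' (fun i => ((z i : ℕ) : ZMod Q)) → ¬ Close R' k k') :
    ∃ H : Finset (Fin (n + 1) → ℤ), Adm (g * M) R (t1 / 2) (2 * t2) (X0 / 2) H ∧
      ∀ h ∈ H, ((g * M : ℕ) : ℤ) ∣ h 0 * (g : ℤ) +
        ∑ i : Fin n, h i.succ * ((b0 i + g * (M * z i / Q) : ℕ) : ℤ) := by
  have hex : ∀ k ∈ F, ∃ h0 : ℤ, (((g * M : ℕ) : ℤ) ∣ h0 * (g : ℤ) +
        ∑ i, (k i : ℤ) * ((b0 i + g * (M * z i / Q) : ℕ) : ℤ)) ∧
      |(h0 : ℝ) + M * (res Q k (fun i => ((z i : ℕ) : ZMod Q)) : ℝ) / Q| ≤ n * K := by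
    intro k hk
    exact exists_h0 hg hQ k b0 z K (fun i => ((hF k hk).1 i).2) hb (hF k hk).2
  choose! f hf1 hf2 using hex
  set z' : Fin n → ZMod Q := fun i => ((z i : ℕ) : ZMod Q) with hz'
  set A := F.filter (fun k => Act Q g t1 t2 k z') with hA
  set v : (Fin n → ℕ) → (Fin (n + 1) → ℤ) := fun k => Fin.cons (f k) (fun i => (k i : ℤ)) with hv
  have hv0 : ∀ k, v k 0 = f k := fun k => rfl
  have hvs : ∀ k (i : Fin n), v k i.succ = (k i : ℤ) := fun k i => by simp [hv]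
  have hinj : Function.Injective v := by
    intro k k' h
    funext i
    have := congrFun h i.succ
    rw [hvs, hvs] at this
    exact_mod_cast this
  have hg' : (0:ℝ) < g := by exact_mod_cast hg
  have hM' : (0:ℝ) < M := by exact_mod_cast hM
  have hbd : ∀ k ∈ A, 0 < pr k ∧ ∃ x : ℝ, 0 < x ∧ ww Q g k z' = (g * M) / (pr k * x) ∧
      x / 2 ≤ |(f k : ℝ)| ∧ |(f k : ℝ)| ≤ 2 * x ∧ t1 * (pr k * x) ≤ g * M ∧
      g * M ≤ t2 * (pr k * x) := by
    intro k hk
    rw [hA, Finset.mem_filter] at hk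
    exact act_bounds hg hM hQ (fun i => ((hF k hk.1).1 i).1) ht1 ht2 hk.2 (hf2 k hk.1)
      (herr k hk.1)
  have hrr : ∀ k, rr (v k) = |(f k : ℝ)| * pr k := by
    intro k
    unfold rr pr
    rw [Fin.prod_univ_succ, hv0]
    congr 1
    refine Finset.prod_congr rfl (fun i _ => ?_)
    rw [hvs]
    simp
  refine ⟨A.image v, ⟨?_, ?_, ?_, ?_, ?_⟩, ?_⟩
  · intro h hh i
    obtain ⟨k, hk, rfl⟩ := Finset.mem_image.mp hh
    obtain ⟨hpr, x, hx, -, h1, -⟩ := hbd k hk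
    refine Fin.cases ?_ (fun j => ?_) i
    · rw [hv0]
      intro h0
      rw [h0] at h1
      simp at h1
      linarith
    · rw [hvs]
      have := ((hF k (Finset.mem_filter.mp hk).1).1 j).1
      exact_mod_cast this.ne'
  · intro h hh
    obtain ⟨k, hk, rfl⟩ := Finset.mem_image.mp hh
    obtain ⟨hpr, x, hx, -, h1, h2, h3, h4⟩ := hbd k hk
    rw [hrr]
    push_cast
    calc t1 / 2 * (|(f k : ℝ)| * pr k) ≤ t1 / 2 * (2 * x * pr k) := by gcongr
      _ = t1 * (pr k * x) := by ring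
      _ ≤ g * M := h3
  · intro h hh
    obtain ⟨k, hk, rfl⟩ := Finset.mem_image.mp hh
    obtain ⟨hpr, x, hx, -, h1, h2, h3, h4⟩ := hbd k hk
    rw [hrr]
    push_cast
    calc (g : ℝ) * M ≤ t2 * (pr k * x) := h4
      _ = 2 * t2 * (x / 2 * pr k) := by ring
      _ ≤ 2 * t2 * (|(f k : ℝ)| * pr k) := by gcongr
  · intro h hh h' hh' hne i
    obtain ⟨k, hk, rfl⟩ := Finset.mem_image.mp hh
    obtain ⟨k', hk', rfl⟩ := Finset.mem_image.mp hh'
    have hkk : k ≠ k' := fun h => hne (by rw [h])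
    have hk1 := Finset.mem_filter.mp hk
    have hk1' := Finset.mem_filter.mp hk'
    have hnc := hclose k hk1.1 k' hk1'.1 hkk hk1.2 hk1'.2
    have hnc1 : ∀ i, (k i : ℝ) ≤ R' * k' i → ¬ ((k' i : ℝ) ≤ R' * k i) := fun i h1 h2 =>
      hnc (Or.inl ⟨i, h1, h2⟩)
    have hnc2 : pr k ≤ R' * pr k' → ¬ (pr k' ≤ R' * pr k) := fun h1 h2 =>
      hnc (Or.inr ⟨h1, h2⟩)
    have key : ∀ k ∈ A, ∀ k' ∈ A, R' * pr k' < pr k → R * |(f k : ℝ)| ≤ |(f k' : ℝ)| := by
      intro k hk k' hk' hlt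
      obtain ⟨hpr, x, hx, -, h1, h2, h3, h4⟩ := hbd k hk
      obtain ⟨hpr', x', hx', -, h1', h2', h3', h4'⟩ := hbd k' hk'
      have hR'0 : 0 < R' := lt_of_lt_of_le hR hRR'
      have e1 : x ≤ g * M / (t1 * pr k) := by
        rw [le_div_iff₀ (by positivity)]
        linarith
      have e2 : g * M / (t2 * pr k') ≤ x' := by
        rw [div_le_iff₀ (by positivity)]
        linarith
      have e3 : 2 * R * (g * M / (t1 * pr k)) ≤ (g * M / (t2 * pr k')) / 2 := by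
        rw [div_div, mul_div_assoc', div_le_div_iff₀ (by positivity) (by positivity)]
        have e4 : 4 * R * t2 * pr k' ≤ t1 * pr k := by
          calc 4 * R * t2 * pr k' ≤ R' * t1 * pr k' := by gcongr
            _ = t1 * (R' * pr k') := by ring
            _ ≤ t1 * pr k := by gcongr
        have : 0 < (g : ℝ) * M := by positivity
        nlinarith
      calc R * |(f k : ℝ)| ≤ R * (2 * x) := by gcongr
        _ ≤ R * (2 * (g * M / (t1 * pr k))) := by gcongr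
        _ = 2 * R * (g * M / (t1 * pr k)) := by ring
        _ ≤ (g * M / (t2 * pr k')) / 2 := e3
        _ ≤ x' / 2 := by linarith
        _ ≤ |(f k' : ℝ)| := h1'
    refine Fin.cases ?_ (fun j => ?_) i
    · rw [hv0, hv0]
      by_cases hc : pr k ≤ R' * pr k'
      · right
        have := hnc2 hc
        exact key k' hk' k hk (not_le.mp this)
      · left
        exact key k hk k' hk' (not_le.mp hc)
    · rw [hvs, hvs]
      have e0 : |(((k j : ℕ) : ℤ) : ℝ)| = (k j : ℝ) := by simp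
      have e0' : |(((k' j : ℕ) : ℤ) : ℝ)| = (k' j : ℝ) := by simp
      rw [e0, e0']
      by_cases hc : (k j : ℝ) ≤ R' * k' j
      · left
        have := not_le.mp (hnc1 j hc)
        have h7 : R * (k j : ℝ) ≤ R' * k j := by gcongr
        linarith
      · right
        have hc := not_le.mp hc
        have h7 : R * (k' j : ℝ) ≤ R' * k' j := by gcongr
        linarith
  · rw [Finset.sum_image (fun a _ b _ h => hinj h)]
    calc X0 / 2 ≤ (∑ k ∈ A, ww Q g k z') / 2 := by linarith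
      _ = ∑ k ∈ A, ww Q g k z' / 2 := by rw [Finset.sum_div]
      _ ≤ _ := by
        refine Finset.sum_le_sum (fun k hk => ?_)
        obtain ⟨hpr, x, hx, hw, h1, h2, h3, h4⟩ := hbd k hk
        rw [hrr, hw]
        push_cast
        have hf0 : 0 < |(f k : ℝ)| := by linarith
        rw [div_div, div_le_div_iff₀ (by positivity) (by positivity)]
        have : (g : ℝ) * M * (|(f k : ℝ)| * pr k) ≤ g * M * (2 * x * pr k) := by gcongr
        linarith
  · intro h hh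
    obtain ⟨k, hk, rfl⟩ := Finset.mem_image.mp hh
    have := hf1 k (Finset.mem_filter.mp hk).1
    rw [hv0]
    simp only [hvs]
    exact this

end V5LD.H66
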