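import Pool.Agent.V5helper66.LD.PB2a

open Finset

namespace V5LD.H66

lemma fiber1 (M Q β : ℕ) (hM : 0 < M) (hβ : β < M) :
    Q / M ≤ ((univ : Finset (Fin Q)).filter (fun x : Fin Q => M * (x : ℕ) / Q = β)).card := by
  rcases Nat.eq_zero_or_pos Q with hQ | hQ
  · subst hQ
    simp
  set x0 := (Q * β + (M - 1)) / M with hx0
  have h1 : Q * β ≤ M * x0 := by
    have h := Nat.div_add_mod (Q * β + (M - 1)) M
    have h' := Nat.mod_lt (Q * β + (M - 1)) hM
    rw [← hx0] at h
    omega
  have h2 : M * x0 ≤ Q * β + (M - 1) := Nat.mul_div_le _ _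
  have h3 : M * (Q / M) ≤ Q := Nat.mul_div_le _ _
  have key : ∀ j, j < Q / M → Q * β ≤ M * (x0 + j) ∧ M * (x0 + j) < Q * β + Q := by
    intro j hj
    have h4 : M * (j + 1) ≤ M * (Q / M) := Nat.mul_le_mul_left _ hj
    constructor
    · exact le_trans h1 (Nat.mul_le_mul_left _ (Nat.le_add_right _ _))
    · have : M * (x0 + j) = M * x0 + M * j := by ring
      have h5 : M * (j + 1) = M * j + M := by ring
      omega
  have hltQ : ∀ j, j < Q / M → x0 + j < Q := by
    intro j hj
    have h6 := (key j hj).2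
    have h7 : Q * β + Q ≤ Q * M := by
      have : Q * (β + 1) ≤ Q * M := Nat.mul_le_mul_left _ hβ
      linarith [this]
    have h8 : M * (x0 + j) < M * Q := by
      calc M * (x0 + j) < Q * β + Q := h6
        _ ≤ Q * M := h7
        _ = M * Q := by ring
    exact Nat.lt_of_mul_lt_mul_left h8
  have hcard : (Finset.range (Q / M)).card = Q / M := Finset.card_range _
  rw [← hcard]
  refine Finset.card_le_card_of_injOn
    (fun j => if h : x0 + j < Q then (⟨x0 + j, h⟩ : Fin Q) else ⟨0, hQ⟩) ?_ ?_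
  · intro j hj
    have hj' : j < Q / M := by simpa using hj
    simp only [hltQ j hj', dif_pos]
    simp only [Finset.coe_filter, Finset.mem_univ, true_and, Set.mem_ofPred_eq]
    have hk := key j hj'
    apply Nat.div_eq_of_lt_le
    · rw [Nat.mul_comm]
      exact hk.1
    · calc M * (x0 + j) < Q * β + Q := hk.2
        _ = (β + 1) * Q := by ring
  · intro j hj j' hj' h
    have hj1 : j < Q / M := by simpa using hj
    have hj1' : j' < Q / M := by simpa using hj'
    simp only [hltQ j hj1, hltQ j' hj1', dif_pos] at h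
    have := congrArg Fin.val h
    simp at this
    exact this

lemma fiberN {n M Q : ℕ} (hM : 0 < M) (β : Fin n → ℕ) (hβ : ∀ i, β i < M) :
    (Q / M) ^ n ≤ ((univ : Finset (Fin n → Fin Q)).filter
      (fun z => ∀ i, M * (z i : ℕ) / Q = β i)).card := by
  classical
  have h1 : ((univ : Finset (Fin n → Fin Q)).filter (fun z => ∀ i, M * (z i : ℕ) / Q = β i))
      = Fintype.piFinset (fun i => (univ : Finset (Fin Q)).filter
        (fun x : Fin Q => M * (x : ℕ) / Q = β i)) := by
    ext z
    simp [Fintype.mem_piFinset]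
  rw [h1, Fintype.card_piFinset]
  calc (Q / M) ^ n = ∏ _i : Fin n, (Q / M) := by simp
    _ ≤ _ := Finset.prod_le_prod' (fun i _ => fiber1 M Q (β i) hM (hβ i))

lemma round_card {n M Q : ℕ} (hM : 0 < M) (Bad : Finset (Fin n → Fin M))
    (Z : Finset (Fin n → Fin Q))
    (h : ∀ β ∈ Bad, ∀ z : Fin n → Fin Q, (∀ i, M * (z i : ℕ) / Q = (β i : ℕ)) → z ∈ Z) :
    Bad.card * (Q / M) ^ n ≤ Z.card := by
  classical
  have hlt : ∀ x : Fin Q, M * (x : ℕ) / Q < M := by
    intro x
    have hQ : 0 < Q := lt_of_le_of_lt (Nat.zero_le _) x.2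
    rw [Nat.div_lt_iff_lt_mul hQ]
    exact Nat.mul_lt_mul_of_pos_left x.2 hM
  set φ : (Fin n → Fin Q) → (Fin n → Fin M) := fun z i => ⟨M * (z i : ℕ) / Q, hlt (z i)⟩ with hφ
  have h1 : Z.card = ∑ β ∈ (univ : Finset (Fin n → Fin M)), (Z.filter (fun z => φ z = β)).card :=
    Finset.card_eq_sum_card_fiberwise (fun x _ => Finset.mem_coe.mpr (Finset.mem_univ _))
  rw [h1]
  calc Bad.card * (Q / M) ^ n = ∑ _β ∈ Bad, (Q / M) ^ n := by simp
    _ ≤ ∑ β ∈ Bad, (Z.filter (fun z => φ z = β)).card := by
        refine Finset.sum_le_sum (fun β hβ => ?_)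
        refine le_trans (fiberN hM (fun i => (β i : ℕ)) (fun i => (β i).2)) ?_
        refine Finset.card_le_card (fun z hz => ?_)
        rw [Finset.mem_filter] at hz ⊢
        refine ⟨h β hβ z hz.2, ?_⟩
        funext i
        exact Fin.ext (hz.2 i)
    _ ≤ _ := Finset.sum_le_sum_of_subset (Finset.subset_univ _)

open Classical in
lemma split_card {n g M F : ℕ} (hg : 0 < g) (P : (Fin n → ℕ) → Prop) {B : ℝ} (hB : 0 ≤ B)
    (h : ∀ b0 : Fin n → ℕ, (∀ i, b0 i < g) → CoLe g F b0 →
      (((univ : Finset (Fin n → Fin M)).filter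
        (fun β => ¬ P (fun i => b0 i + g * (β i : ℕ)))).card : ℝ) ≤ B) :
    (((univ : Finset (Fin n → Fin (g * M))).filter (fun b =>
      CoLe g F (fun i => ((b i : Fin (g * M)) : ℕ)) ∧
      ¬ P (fun i => ((b i : Fin (g * M)) : ℕ)))).card : ℝ) ≤ (g : ℝ) ^ n * B := by
  set S := (univ : Finset (Fin n → Fin (g * M))).filter (fun b =>
      CoLe g F (fun i => ((b i : Fin (g * M)) : ℕ)) ∧
      ¬ P (fun i => ((b i : Fin (g * M)) : ℕ))) with hS
  set ψ : (Fin n → Fin (g * M)) → (Fin n → Fin g) :=
    fun b i => ⟨(b i : ℕ) % g, Nat.mod_lt _ hg⟩ with hψ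
  have h1 : S.card = ∑ b0 ∈ (univ : Finset (Fin n → Fin g)), (S.filter (fun b => ψ b = b0)).card :=
    Finset.card_eq_sum_card_fiberwise (fun x _ => Finset.mem_coe.mpr (Finset.mem_univ _))
  rw [h1]
  push_cast
  have hlt : ∀ x : Fin (g * M), (x : ℕ) / g < M := by
    intro x
    rw [Nat.div_lt_iff_lt_mul hg]
    exact lt_of_lt_of_le x.2 (Nat.mul_comm g M).le
  have h2 : ∀ b0 : Fin n → Fin g, ((S.filter (fun b => ψ b = b0)).card : ℝ) ≤ B := by
    intro b0
    by_cases hco : CoLe g F (fun i => ((b0 i : Fin g) : ℕ))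
    · refine le_trans ?_ (h (fun i => ((b0 i : Fin g) : ℕ)) (fun i => (b0 i).2) hco)
      have : (S.filter (fun b => ψ b = b0)).card ≤ ((univ : Finset (Fin n → Fin M)).filter
        (fun β => ¬ P (fun i => ((b0 i : Fin g) : ℕ) + g * (β i : ℕ)))).card := by
        refine Finset.card_le_card_of_injOn (fun b i => ⟨(b i : ℕ) / g, hlt (b i)⟩) ?_ ?_
        · intro b hb
          simp only [Finset.coe_filter, Set.mem_ofPred_eq, hS, Finset.mem_filter,
            Finset.mem_univ, true_and] at hb ⊢
          obtain ⟨⟨_, hP⟩, hb0⟩ := hb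
          have e : (fun i => ((b0 i : Fin g) : ℕ) + g * ((b i : ℕ) / g))
              = (fun i => ((b i : Fin (g * M)) : ℕ)) := by
            funext i
            rw [← hb0]
            exact Nat.mod_add_div _ _
          rw [e]
          exact hP
        · intro b hb b' hb' hbb
          simp only [Finset.coe_filter, Set.mem_ofPred_eq] at hb hb'
          funext i
          have e1 := congrFun hbb i
          have e2 : (b i : ℕ) / g = (b' i : ℕ) / g := congrArg Fin.val e1
          have e3 : (b i : ℕ) % g = (b' i : ℕ) % g := by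
            have := congrFun (hb.2.trans hb'.2.symm) i
            exact congrArg Fin.val this
          apply Fin.ext
          rw [← Nat.mod_add_div (b i : ℕ) g, ← Nat.mod_add_div (b' i : ℕ) g, e2, e3]
      exact_mod_cast this
    · have : S.filter (fun b => ψ b = b0) = ∅ := by
        rw [Finset.filter_eq_empty_iff]
        intro b hb hb0
        apply hco
        rw [hS, Finset.mem_filter] at hb
        intro e heg hei
        refine hb.2.1 e heg (fun i => ?_)
        have h3 : e ∣ (b i : ℕ) % g := by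
          have := hei i
          rw [← hb0] at this
          exact this
        show e ∣ ((b i : Fin (g * M)) : ℕ)
        rw [← Nat.mod_add_div (b i : ℕ) g]
        exact (Nat.dvd_add_right h3).mpr (Dvd.dvd.mul_right heg _)
      rw [this]
      simpa using hB
  calc ∑ b0 : Fin n → Fin g, ((S.filter (fun b => ψ b = b0)).card : ℝ)
      ≤ ∑ _b0 : Fin n → Fin g, B := Finset.sum_le_sum (fun b0 _ => h2 b0)
    _ = (g : ℝ) ^ n * B := by simp

end V5LD.H66
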