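import Pool.Agent.V5helper66.LD.PB2b

open Finset

namespace V5LD.H66

lemma mem_Lat {n g : ℕ} {b : Fin n → ℕ} {Q0 Q1 : ℕ} {k : Fin n → ℕ} :
    k ∈ Lat n g b Q0 Q1 ↔ (∀ i, g * Q0 ≤ k i ∧ k i < g * Q1) ∧ g ∣ ∑ i, k i * b i := by
  classical
  unfold Lat
  rw [Finset.mem_filter, Fintype.mem_piFinset]
  simp only [Finset.mem_Ico]

lemma mem_Fam {n g : ℕ} {b : Fin n → ℕ} {Q0 Q1 : ℕ} {k : Fin n → ℕ} :
    k ∈ Fam n g b Q0 Q1 ↔ k ∈ Lat n g b Q0 Q1 ∧ ∀ m : ℕ, 2 ≤ m → ∀ k' : Fin n → ℕ,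
      k = (fun i => m * k' i) → ¬ g ∣ ∑ i, k' i * b i := by
  classical
  unfold Fam
  rw [Finset.mem_filter]

lemma par {n g : ℕ} {b : Fin n → ℕ} {Q0 Q1 : ℕ} {k k' : Fin n → ℕ} (hn : 0 < n)
    (hk : k ∈ Fam n g b Q0 Q1) (hk' : k' ∈ Fam n g b Q0 Q1) (h0 : 0 < g * Q0)
    (hpar : ∀ i j, k i * k' j = k j * k' i) : k = k' := by
  rw [mem_Fam, mem_Lat] at hk hk'
  obtain ⟨⟨hkb, hkd⟩, hkp⟩ := hk
  obtain ⟨⟨hkb', hkd'⟩, hkp'⟩ := hk'
  set i0 : Fin n := ⟨0, hn⟩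
  have hpos : 0 < k i0 := lt_of_lt_of_le h0 (hkb i0).1
  have hpos' : 0 < k' i0 := lt_of_lt_of_le h0 (hkb' i0).1
  obtain ⟨α, β, hco, hα, hβ⟩ := Nat.exists_coprime (k i0) (k' i0)
  set d := Nat.gcd (k i0) (k' i0) with hd
  have hd0 : 0 < d := Nat.gcd_pos_of_pos_left _ hpos
  have hαβ : ∀ j, α * k' j = β * k j := by
    intro j
    have := hpar i0 j
    have h1 : (α * k' j) * d = (β * k j) * d := by
      calc (α * k' j) * d = (α * d) * k' j := by ring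
        _ = k i0 * k' j := by rw [← hα]
        _ = k j * k' i0 := this
        _ = k j * (β * d) := by rw [← hβ]
        _ = (β * k j) * d := by ring
    exact Nat.eq_of_mul_eq_mul_right hd0 h1
  have hα0 : 0 < α := by
    rcases Nat.eq_zero_or_pos α with h | h
    · rw [h, zero_mul] at hα; omega
    · exact h
  have hβ0 : 0 < β := by
    rcases Nat.eq_zero_or_pos β with h | h
    · rw [h, zero_mul] at hβ; omega
    · exact h
  have hw : ∀ j, ∃ w, k j = α * w := by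
    intro j
    have : α ∣ β * k j := ⟨k' j, (hαβ j).symm⟩
    exact (Nat.Coprime.dvd_of_dvd_mul_left hco this)
  choose w hw using hw
  have hw' : ∀ j, k' j = β * w j := by
    intro j
    have := hαβ j
    rw [hw j] at this
    have h2 : α * k' j = α * (β * w j) := by rw [this]; ring
    exact Nat.eq_of_mul_eq_mul_left hα0 h2
  have hgw : g ∣ ∑ i, w i * b i := by
    have h1 : g ∣ α * ∑ i, w i * b i := by
      have : ∑ i, k i * b i = α * ∑ i, w i * b i := by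
        rw [Finset.mul_sum]
        refine Finset.sum_congr rfl (fun i _ => ?_)
        rw [hw i]; ring
      rw [← this]; exact hkd
    have h2 : g ∣ β * ∑ i, w i * b i := by
      have : ∑ i, k' i * b i = β * ∑ i, w i * b i := by
        rw [Finset.mul_sum]
        refine Finset.sum_congr rfl (fun i _ => ?_)
        rw [hw' i]; ring
      rw [← this]; exact hkd'
    have h3 := Nat.dvd_gcd h1 h2
    rw [Nat.gcd_mul_right, hco, one_mul] at h3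
    exact h3
  have hα1 : α = 1 := by
    by_contra hne
    exact hkp α (by omega) w (funext hw) hgw
  have hβ1 : β = 1 := by
    by_contra hne
    exact hkp' β (by omega) w (funext hw') hgw
  funext j
  rw [hw j, hw' j, hα1, hβ1]

lemma indep_of_ne {n g Q : ℕ} {b : Fin n → ℕ} {Q0 Q1 : ℕ} {k k' : Fin n → ℕ} (hn : 0 < n)
    (hk : k ∈ Fam n g b Q0 Q1) (hk' : k' ∈ Fam n g b Q0 Q1) (h0 : 0 < g * Q0) (hne : k ≠ k')
    (hQ : (g * Q1) * (g * Q1) ≤ Q) : Indep Q k k' := by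
  by_contra hcon
  apply hne
  apply par hn hk hk' h0
  unfold Indep at hcon
  push Not at hcon
  intro i j
  have h1 := hcon i j
  rw [mem_Fam, mem_Lat] at hk hk'
  have hb1 := fun i => (hk.1.1 i).2
  have hb2 := fun i => (hk'.1.1 i).2
  have h2 : (k i) * (k' j) < Q := lt_of_lt_of_le (Nat.mul_lt_mul'' (hb1 i) (hb2 j)) hQ
  have h3 : (k j) * (k' i) < Q := lt_of_lt_of_le (Nat.mul_lt_mul'' (hb1 j) (hb2 i)) hQ
  have h4 : (k i : ℤ) * (k' j : ℤ) - (k j : ℤ) * (k' i : ℤ) = 0 := by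
    apply Int.eq_zero_of_abs_lt_dvd h1
    rw [abs_lt]
    have h2' : (k i : ℤ) * (k' j : ℤ) < Q := by exact_mod_cast h2
    have h3' : (k j : ℤ) * (k' i : ℤ) < Q := by exact_mod_cast h3
    have h5 : (0:ℤ) ≤ (k i : ℤ) * (k' j : ℤ) := by positivity
    have h6 : (0:ℤ) ≤ (k j : ℤ) * (k' i : ℤ) := by positivity
    constructor <;> linarith
  have h7 : (k i : ℤ) * (k' j : ℤ) = (k j : ℤ) * (k' i : ℤ) := by linarith
  exact_mod_cast h7

lemma pr_pos {n : ℕ} {k : Fin n → ℕ} (hk : ∀ i, 0 < k i) : 0 < pr k := by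
  unfold pr
  exact Finset.prod_pos (fun i _ => by exact_mod_cast hk i)

lemma pr_le {n : ℕ} {k : Fin n → ℕ} {B : ℝ} (hk : ∀ i, (k i : ℝ) ≤ B) : pr k ≤ B ^ n := by
  unfold pr
  calc ∏ i, (k i : ℝ) ≤ ∏ _i : Fin n, B :=
        Finset.prod_le_prod (fun i _ => by positivity) (fun i _ => hk i)
    _ = B ^ n := by simp

lemma le_pr {n : ℕ} {k : Fin n → ℕ} {B : ℝ} (hB : 0 ≤ B) (hk : ∀ i, B ≤ (k i : ℝ)) :
    B ^ n ≤ pr k := by
  unfold pr
  calc B ^ n = ∏ _i : Fin n, B := by simp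
    _ ≤ ∏ i, (k i : ℝ) := Finset.prod_le_prod (fun i _ => hB) (fun i _ => hk i)

open Classical in
lemma one_b0 {n g M Q Q0 Q1 : ℕ} {b0 : Fin n → ℕ} {t1 t2 R R' X0 δ1 δ2 : ℝ}
    (hg : 0 < g) (hM : 0 < M) (hQ : 0 < Q) (hb : ∀ i, b0 i < g) (hQ0 : 0 < Q0)
    (ht1 : 0 < t1) (ht2 : 0 < t2) (hR : 0 < R) (hR' : 4 * R * t2 ≤ R' * t1) (hRR' : R ≤ R')
    (herr : ∀ k ∈ Fam n g b0 Q0 Q1, 2 * (n * ((g * Q1 : ℕ) : ℝ)) * (pr k * t2) ≤ g * M)
    (hZ1 : (((univ : Finset (Fin n → Fin Q)).filter (fun z =>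
      (∑ k ∈ (Fam n g b0 Q0 Q1).filter
        (fun k => Act Q g t1 t2 k (fun i => ((z i : ℕ) : ZMod Q))),
        ww Q g k (fun i => ((z i : ℕ) : ZMod Q))) < X0)).card : ℝ) ≤ δ1 * (Q : ℝ) ^ n)
    (hZ2 : (((univ : Finset (Fin n → Fin Q)).filter (fun z =>
      ∃ p ∈ ((Fam n g b0 Q0 Q1) ×ˢ (Fam n g b0 Q0 Q1)).filter
        (fun p => p.1 ≠ p.2 ∧ Close R' p.1 p.2),
        Act Q g t1 t2 p.1 (fun i => ((z i : ℕ) : ZMod Q)) ∧
        Act Q g t1 t2 p.2 (fun i => ((z i : ℕ) : ZMod Q)))).card : ℝ) ≤ δ2 * (Q : ℝ) ^ n) :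
    (((univ : Finset (Fin n → Fin M)).filter (fun β =>
      ¬ ∃ H : Finset (Fin (n + 1) → ℤ), Adm (g * M) R (t1 / 2) (2 * t2) (X0 / 2) H ∧
      ∀ h ∈ H, ((g * M : ℕ) : ℤ) ∣ h 0 * (g : ℤ) +
        ∑ i : Fin n, h i.succ * ((b0 i + g * (β i : ℕ) : ℕ) : ℤ))).card : ℝ)
      * (((Q / M : ℕ) : ℝ)) ^ n ≤ (δ1 + δ2) * (Q : ℝ) ^ n := by
  set Z1 := (univ : Finset (Fin n → Fin Q)).filter (fun z =>
      (∑ k ∈ (Fam n g b0 Q0 Q1).filter
        (fun k => Act Q g t1 t2 k (fun i => ((z i : ℕ) : ZMod Q))),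
        ww Q g k (fun i => ((z i : ℕ) : ZMod Q))) < X0) with hZ1d
  set Z2 := (univ : Finset (Fin n → Fin Q)).filter (fun z =>
      ∃ p ∈ ((Fam n g b0 Q0 Q1) ×ˢ (Fam n g b0 Q0 Q1)).filter
        (fun p => p.1 ≠ p.2 ∧ Close R' p.1 p.2),
        Act Q g t1 t2 p.1 (fun i => ((z i : ℕ) : ZMod Q)) ∧
        Act Q g t1 t2 p.2 (fun i => ((z i : ℕ) : ZMod Q))) with hZ2d
  set Bad := (univ : Finset (Fin n → Fin M)).filter (fun β =>
      ¬ ∃ H : Finset (Fin (n + 1) → ℤ), Adm (g * M) R (t1 / 2) (2 * t2) (X0 / 2) H ∧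
      ∀ h ∈ H, ((g * M : ℕ) : ℤ) ∣ h 0 * (g : ℤ) +
        ∑ i : Fin n, h i.succ * ((b0 i + g * (β i : ℕ) : ℕ) : ℤ)) with hBad
  have h1 : Bad.card * (Q / M) ^ n ≤ (Z1 ∪ Z2).card := by
    apply round_card hM
    intro β hβ z hz
    by_contra hz12
    rw [Finset.mem_union, not_or] at hz12
    obtain ⟨hz1, hz2⟩ := hz12
    rw [hBad, Finset.mem_filter] at hβ
    apply hβ.2
    rw [hZ1d, Finset.mem_filter] at hz1
    rw [hZ2d, Finset.mem_filter] at hz2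
    have hX : X0 ≤ ∑ k ∈ (Fam n g b0 Q0 Q1).filter
        (fun k => Act Q g t1 t2 k (fun i => ((z i : ℕ) : ZMod Q))),
        ww Q g k (fun i => ((z i : ℕ) : ZMod Q)) := by
      by_contra hlt
      exact hz1 ⟨Finset.mem_univ _, not_le.mp hlt⟩
    have hmain := core (b0 := b0) (z := fun i => (z i : ℕ)) (K := g * Q1) (t1 := t1) (t2 := t2)
      (R := R) (R' := R') (X0 := X0) (M := M) (Q := Q) (Fam n g b0 Q0 Q1) hg hM hQ
      (by
        intro k hk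
        rw [mem_Fam, mem_Lat] at hk
        refine ⟨fun i => ⟨lt_of_lt_of_le (Nat.mul_pos hg hQ0) (hk.1.1 i).1,
          (hk.1.1 i).2.le⟩, hk.1.2⟩)
      hb ht1 ht2 hR hR' hRR' herr hX
      (by
        intro k hk k' hk' hne ha ha' hcl
        apply hz2
        refine ⟨Finset.mem_univ _, (k, k'), ?_, ha, ha'⟩
        rw [Finset.mem_filter, Finset.mem_product]
        exact ⟨⟨hk, hk'⟩, hne, hcl⟩)
    obtain ⟨H, hH1, hH2⟩ := hmain
    refine ⟨H, hH1, fun h hh => ?_⟩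
    have := hH2 h hh
    have e : ∀ i, M * (z i : ℕ) / Q = (β i : ℕ) := hz
    simp only [e] at this
    exact this
  have h2 : ((Z1 ∪ Z2).card : ℝ) ≤ (Z1.card : ℝ) + Z2.card := by
    exact_mod_cast Finset.card_union_le _ _
  have h3 : ((Bad.card * (Q / M) ^ n : ℕ) : ℝ) ≤ ((Z1 ∪ Z2).card : ℝ) := by exact_mod_cast h1
  calc (Bad.card : ℝ) * (((Q / M : ℕ) : ℝ)) ^ n = ((Bad.card * (Q / M) ^ n : ℕ) : ℝ) := by
        push_cast; rfl
    _ ≤ (Z1.card : ℝ) + Z2.card := h3.trans h2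
    _ ≤ δ1 * (Q : ℝ) ^ n + δ2 * (Q : ℝ) ^ n := add_le_add hZ1 hZ2
    _ = _ := by ring

end V5LD.H66
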