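import Pool.Agent.V5helper66.LD.PB2c

open Finset

namespace V5LD.H66

lemma asym0 (n : ℕ) (η A B : ℝ) (hη : 0 < η) : ∃ N0 : ℕ, ∀ N : ℕ, N0 ≤ N →
    2 ≤ N ∧ B ≤ (Real.log N) ^ (1 / 8 : ℝ) ∧ B ≤ Real.log (Real.log N) ∧ B ≤ Real.log N ∧
    A * (1 + Real.log N) ^ n ≤ (N : ℝ) ^ η := by
  have hl : Filter.Tendsto (fun N : ℕ => Real.log (N : ℝ)) Filter.atTop Filter.atTop :=
    Real.tendsto_log_atTop.comp tendsto_natCast_atTop_atTop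
  have h1 : ∀ᶠ N : ℕ in Filter.atTop, B ≤ (Real.log N) ^ (1 / 8 : ℝ) :=
    ((tendsto_rpow_atTop (by norm_num : (0:ℝ) < 1 / 8)).comp hl).eventually_ge_atTop B
  have h2 : ∀ᶠ N : ℕ in Filter.atTop, B ≤ Real.log (Real.log N) :=
    (Real.tendsto_log_atTop.comp hl).eventually_ge_atTop B
  have h3 : ∀ᶠ N : ℕ in Filter.atTop, B ≤ Real.log N := hl.eventually_ge_atTop B
  have h3' : ∀ᶠ N : ℕ in Filter.atTop, (1:ℝ) ≤ Real.log N := hl.eventually_ge_atTop 1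
  have h4 : ∀ᶠ N : ℕ in Filter.atTop, 2 ≤ N := Filter.eventually_ge_atTop 2
  have h5 : ∀ᶠ N : ℕ in Filter.atTop, A * (1 + Real.log N) ^ n ≤ (N : ℝ) ^ η := by
    have ho := (isLittleO_log_rpow_rpow_atTop (n : ℝ) hη).comp_tendsto
      (tendsto_natCast_atTop_atTop (R := ℝ))
    have hc : 0 < 1 / ((|A| + 1) * 2 ^ n) := by positivity
    have h6 := ho.bound hc
    filter_upwards [h6, h3', h4] with N hN hl1 hN2
    simp only [Function.comp] at hN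
    have hlp : 0 ≤ Real.log (N : ℝ) := by linarith
    rw [Real.rpow_natCast, Real.norm_of_nonneg (by positivity),
      Real.norm_of_nonneg (by positivity)] at hN
    have h7 : (1 + Real.log N) ^ n ≤ (2 * Real.log N) ^ n := by
      apply pow_le_pow_left₀ (by positivity)
      linarith
    calc A * (1 + Real.log N) ^ n ≤ (|A| + 1) * (2 * Real.log N) ^ n := by
          have : A ≤ |A| + 1 := by linarith [le_abs_self A]
          have h8 : 0 ≤ (1 + Real.log N) ^ n := by positivity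
          calc A * (1 + Real.log N) ^ n ≤ (|A| + 1) * (1 + Real.log N) ^ n :=
                mul_le_mul_of_nonneg_right this h8
            _ ≤ _ := mul_le_mul_of_nonneg_left h7 (by positivity)
      _ = ((|A| + 1) * 2 ^ n) * (Real.log N) ^ n := by rw [mul_pow]; ring
      _ ≤ ((|A| + 1) * 2 ^ n) * (1 / ((|A| + 1) * 2 ^ n) * (N : ℝ) ^ η) :=
          mul_le_mul_of_nonneg_left hN (by positivity)
      _ = (N : ℝ) ^ η := by field_simp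
  have hall := h1.and (h2.and (h3.and (h4.and h5)))
  obtain ⟨N0, hN0⟩ := Filter.eventually_atTop.mp hall
  refine ⟨N0, fun N hN => ?_⟩
  obtain ⟨a, b, c, d, e⟩ := hN0 N hN
  exact ⟨d, a, b, c, e⟩

/-- the parameters `Q0`, `Q1`. -/
lemma params {X : ℝ} (hX : 4 ≤ X) :
    ∃ Q0 Q1 : ℕ, 2 ≤ Q0 ∧ Q0 < Q1 ∧ X ^ 4 ≤ Q0 ∧ (Q1 : ℝ) ≤ X ^ 7 ∧
      2 * Real.log X ≤ Real.log ((Q1 : ℝ) / Q0) := by
  have hX0 : 0 < X := by linarith
  have h4 : (2:ℝ) ≤ X ^ 4 := by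
    calc (2:ℝ) ≤ 4 ^ 4 := by norm_num
      _ ≤ X ^ 4 := by gcongr
  have h7 : (2:ℝ) ≤ X ^ 7 := by
    calc (2:ℝ) ≤ 4 ^ 7 := by norm_num
      _ ≤ X ^ 7 := by gcongr
  have hc1 : X ^ 4 ≤ (⌈X ^ 4⌉₊ : ℝ) := Nat.le_ceil _
  have hc2 : (⌈X ^ 4⌉₊ : ℝ) ≤ 2 * X ^ 4 := by
    have := (Nat.ceil_lt_add_one (by positivity : (0:ℝ) ≤ X ^ 4)).le
    linarith
  have hf1 : (⌊X ^ 7⌋₊ : ℝ) ≤ X ^ 7 := Nat.floor_le (by positivity)
  have hf2 : X ^ 7 / 2 ≤ (⌊X ^ 7⌋₊ : ℝ) := by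
    have := (Nat.lt_floor_add_one (X ^ 7)).le
    linarith
  have hq : X ^ 2 ≤ (⌊X ^ 7⌋₊ : ℝ) / (⌈X ^ 4⌉₊ : ℝ) := by
    rw [le_div_iff₀ (by linarith)]
    calc X ^ 2 * (⌈X ^ 4⌉₊ : ℝ) ≤ X ^ 2 * (2 * X ^ 4) := by gcongr
      _ = 4 * X ^ 6 / 2 := by ring
      _ ≤ X * X ^ 6 / 2 := by gcongr
      _ = X ^ 7 / 2 := by ring
      _ ≤ _ := hf2
  refine ⟨⌈X ^ 4⌉₊, ⌊X ^ 7⌋₊, ?_, ?_, hc1, hf1, ?_⟩
  · have : (2:ℝ) ≤ (⌈X ^ 4⌉₊ : ℝ) := by linarith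
    exact_mod_cast this
  · have h16 : (1:ℝ) < (⌊X ^ 7⌋₊ : ℝ) / (⌈X ^ 4⌉₊ : ℝ) := by
      have : (1:ℝ) < X ^ 2 := by nlinarith
      linarith
    rw [one_lt_div (by linarith)] at h16
    exact_mod_cast h16
  · have : Real.log (X ^ 2) ≤ Real.log ((⌊X ^ 7⌋₊ : ℝ) / (⌈X ^ 4⌉₊ : ℝ)) :=
      Real.log_le_log (by positivity) hq
    rw [Real.log_pow] at this
    exact_mod_cast this

end V5LD.H66
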